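import Pool.Agent.H506R3.MagB.M1

/-!
# The kernel `exp(-|x-y|)` is a Gaussian mixture
-/

set_option autoImplicit false

namespace Pool.Agent.R755.Mx

open MeasureTheory ProbabilityTheory Set Filter Topology
open scoped ENNReal

noncomputable def gd (x : ℝ) : ℝ := gaussianPDFReal 0 1 x

theorem gd_eq (x : ℝ) : gd x = (Real.sqrt (2 * Real.pi))⁻¹ * Real.exp (-(x ^ 2 / 2)) := by
  unfold gd gaussianPDFReal
  congr 2
  · simp
  · simp only [NNReal.coe_one, sub_zero, mul_one]; ring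

theorem gd_cont : Continuous gd := by
  rw [show gd = fun x => (Real.sqrt (2 * Real.pi))⁻¹ * Real.exp (-(x ^ 2 / 2)) from funext gd_eq]
  fun_prop

theorem gd_nonneg (x : ℝ) : 0 ≤ gd x := gaussianPDFReal_nonneg 0 1 x

theorem gd_le (x : ℝ) : gd x ≤ 1 := by
  rw [gd_eq]
  have h1 : Real.exp (-(x ^ 2 / 2)) ≤ 1 := Real.exp_le_one_iff.2 (by nlinarith [sq_nonneg x])
  have h2 : (Real.sqrt (2 * Real.pi))⁻¹ ≤ 1 := by
    apply inv_le_one_of_one_le₀
    apply Real.le_sqrt_of_sq_le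
    linarith [Real.pi_gt_three]
  have h0 : 0 ≤ (Real.sqrt (2 * Real.pi))⁻¹ := by positivity
  nlinarith [Real.exp_pos (-(x ^ 2 / 2))]

theorem gd_int : Integrable gd := integrable_gaussianPDFReal 0 1

theorem abs_gauss (c : ℝ) (hc : 0 < c) :
    Integrable (fun w : ℝ => |w| * Real.exp (-(c * w ^ 2 / 2))) ∧
    ∫ w : ℝ, |w| * Real.exp (-(c * w ^ 2 / 2)) = 2 / c := by
  have h1 : Integrable (fun w : ℝ => w * Real.exp (-(c / 2) * w ^ 2)) :=
    integrable_mul_exp_neg_mul_sq (by positivity)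
  have h2 : Integrable (fun w : ℝ => |w| * Real.exp (-(c * w ^ 2 / 2))) := by
    refine h1.norm.congr (Eventually.of_forall fun w => ?_)
    simp only [norm_mul, Real.norm_eq_abs, Real.abs_exp]
    congr 2; ring
  refine ⟨h2, ?_⟩
  have h3 := integral_comp_abs (f := fun w : ℝ => w * Real.exp (-(c * w ^ 2 / 2)))
  simp only [sq_abs] at h3
  rw [h3]
  have h4 : ∫ w in Ioi (0:ℝ), w * Real.exp (-(c * w ^ 2 / 2)) = 0 - (-(1 / c)) := by
    have hd : ∀ x : ℝ, HasDerivAt (fun w : ℝ => -(1 / c) * Real.exp (-(c * w ^ 2 / 2)))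
        (x * Real.exp (-(c * x ^ 2 / 2))) x := by
      intro x
      have e1 : HasDerivAt (fun w : ℝ => -(c * w ^ 2 / 2)) (-(c * x)) x := by
        have := (((hasDerivAt_pow 2 x).const_mul c).div_const 2).neg
        refine this.congr_deriv ?_
        norm_num; ring
      refine (e1.exp.const_mul (-(1 / c))).congr_deriv ?_
      field_simp
    have h5 : Tendsto (fun w : ℝ => -(1 / c) * Real.exp (-(c * w ^ 2 / 2))) atTop (𝓝 0) := by
      have e2 : Tendsto (fun w : ℝ => -(c * w ^ 2 / 2)) atTop atBot := by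
        apply tendsto_neg_atTop_atBot.comp
        have : Tendsto (fun w : ℝ => (c / 2) * w ^ 2) atTop atTop :=
          (tendsto_pow_atTop two_ne_zero).const_mul_atTop (by positivity)
        exact this.congr (fun w => by ring)
      have e3 := (Real.tendsto_exp_atBot.comp e2).const_mul (-(1 / c))
      simpa using e3
    have := integral_Ioi_of_hasDerivAt_of_tendsto (a := 0) (m := 0)
      ((hd 0).continuousAt.continuousWithinAt) (fun x _ => hd x)
      ((h2.integrableOn (s := Ioi 0)).congr_fun (fun x hx => by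
        show |x| * _ = _
        rw [abs_of_pos hx]) measurableSet_Ioi) h5
    rw [this]; simp
  rw [h4]; ring

/-- the kernel of the mixture -/
noncomputable def GG (w u : ℝ) : ℝ := gd w * gd (w * u) * |w|

theorem GG_nonneg (w u : ℝ) : 0 ≤ GG w u :=
  mul_nonneg (mul_nonneg (gd_nonneg _) (gd_nonneg _)) (abs_nonneg _)

theorem GG_eq (w u : ℝ) : GG w u = (2 * Real.pi)⁻¹ * (|w| * Real.exp (-((1 + u ^ 2) * w ^ 2 / 2))) := by
  unfold GG
  rw [gd_eq, gd_eq]
  have h1 : Real.exp (-(w ^ 2 / 2)) * Real.exp (-((w * u) ^ 2 / 2)) =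
      Real.exp (-((1 + u ^ 2) * w ^ 2 / 2)) := by
    rw [← Real.exp_add]; congr 1; ring
  have h2 : (Real.sqrt (2 * Real.pi))⁻¹ * (Real.sqrt (2 * Real.pi))⁻¹ = (2 * Real.pi)⁻¹ := by
    rw [← mul_inv, Real.mul_self_sqrt (by positivity)]
  rw [← h1, ← h2]; ring

theorem GG_int (u : ℝ) : Integrable (fun w => GG w u) ∧
    ∫ w, GG w u = (Real.pi)⁻¹ * (1 + u ^ 2)⁻¹ := by
  have h := abs_gauss (1 + u ^ 2) (by positivity)
  simp_rw [GG_eq]
  refine ⟨h.1.const_mul _, ?_⟩
  rw [integral_const_mul, h.2]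
  field_simp

theorem GG_cont : Continuous (Function.uncurry GG) := by
  unfold GG Function.uncurry
  have := gd_cont
  fun_prop

theorem GG_prod : Integrable (Function.uncurry GG) ((volume : Measure ℝ).prod volume) := by
  rw [integrable_prod_iff' GG_cont.aestronglyMeasurable]
  refine ⟨Eventually.of_forall fun u => (GG_int u).1, ?_⟩
  have : (fun y => ∫ x, ‖Function.uncurry GG (x, y)‖) = fun u : ℝ => (Real.pi)⁻¹ * (1 + u ^ 2)⁻¹ := by
    funext u
    rw [← (GG_int u).2]
    apply integral_congr_ae (Eventually.of_forall fun w => ?_)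
    show ‖GG w u‖ = GG w u
    rw [Real.norm_eq_abs, abs_of_nonneg (GG_nonneg w u)]
  rw [this]
  exact integrable_inv_one_add_sq.const_mul _

theorem cos_gauss (t : ℝ) : ∫ z : ℝ, Real.cos (t * z) * gd z = Real.exp (-(t ^ 2 / 2)) := by
  have h := charFun_gaussianReal (μ := 0) (v := 1) t
  rw [charFun_apply_real] at h
  have h2 := congrArg Complex.re h
  have hint : Integrable (fun x : ℝ => Complex.exp (t * x * Complex.I)) (gaussianReal 0 1) := by
    refine Integrable.of_bound (C := 1) (by fun_prop) (Eventually.of_forall fun x => ?_)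
    rw [show ((t:ℂ) * x * Complex.I) = ((t * x : ℝ) : ℂ) * Complex.I by push_cast; ring]
    exact (Complex.norm_exp_ofReal_mul_I _).le
  have h3 : (∫ x : ℝ, Complex.exp (t * x * Complex.I) ∂(gaussianReal 0 1)).re =
      ∫ x : ℝ, Real.cos (t * x) ∂(gaussianReal 0 1) := by
    have := integral_re hint (𝕜 := ℂ)
    rw [show (∫ x : ℝ, Complex.exp (t * x * Complex.I) ∂(gaussianReal 0 1)).re =
      RCLike.re (∫ x : ℝ, Complex.exp (t * x * Complex.I) ∂(gaussianReal 0 1)) from rfl, ← this]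
    apply integral_congr_ae (Eventually.of_forall fun x => ?_)
    show (Complex.exp (t * x * Complex.I)).re = _
    rw [show ((t:ℂ) * x * Complex.I) = ((t * x : ℝ) : ℂ) * Complex.I by push_cast; ring,
      Complex.exp_ofReal_mul_I_re]
  rw [h3] at h2
  rw [integral_gaussianReal_eq_integral_smul one_ne_zero] at h2
  have h4 : (Complex.exp (t * (0:ℝ) * Complex.I - (1:NNReal) * t ^ 2 / 2)).re =
      Real.exp (-(t ^ 2 / 2)) := by
    rw [show ((t:ℂ) * (0:ℝ) * Complex.I - (1:NNReal) * t ^ 2 / 2) = ((-(t ^ 2 / 2) : ℝ) : ℂ) by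
      push_cast; simp]
    rw [← Complex.ofReal_exp, Complex.ofReal_re]
  rw [h4] at h2
  rw [← h2]
  apply integral_congr_ae (Eventually.of_forall fun x => ?_)
  show _ = gaussianPDFReal 0 1 x • Real.cos (t * x)
  rw [smul_eq_mul, mul_comm]; rfl

theorem cos_cauchy (a : ℝ) : ∫ u : ℝ, Real.cos (a * u) * ((Real.pi)⁻¹ * (1 + u ^ 2)⁻¹) =
    Real.exp (-|a|) := by
  have h := Pool.Agent.H506R3.MagB.uu_ft 1 one_pos a
  have h2 := congrArg Complex.re h
  have hint : Integrable (fun s : ℝ => Pool.Agent.H506R3.MagB.ex (s * a) *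
      ((Pool.Agent.H506R3.MagB.uu 1 s : ℝ) : ℂ)) := by
    refine (Pool.Agent.H506R3.MagB.uu_int 1 one_pos).ofReal.bdd_mul (c := 1) ?_
      (Eventually.of_forall fun s => ?_)
    · exact (Pool.Agent.H506R3.MagB.ex_cont.comp (by fun_prop)).aestronglyMeasurable
    · rw [Pool.Agent.H506R3.MagB.norm_ex]
  have h3 : (∫ s : ℝ, Pool.Agent.H506R3.MagB.ex (s * a) *
      ((Pool.Agent.H506R3.MagB.uu 1 s : ℝ) : ℂ)).re =
      ∫ s : ℝ, Real.cos (a * s) * (1 + s ^ 2)⁻¹ := by
    have := integral_re hint (𝕜 := ℂ)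
    rw [show (∫ s : ℝ, Pool.Agent.H506R3.MagB.ex (s * a) *
      ((Pool.Agent.H506R3.MagB.uu 1 s : ℝ) : ℂ)).re = RCLike.re (∫ s : ℝ,
        Pool.Agent.H506R3.MagB.ex (s * a) * ((Pool.Agent.H506R3.MagB.uu 1 s : ℝ) : ℂ)) from rfl,
      ← this]
    apply integral_congr_ae (Eventually.of_forall fun s => ?_)
    show (Pool.Agent.H506R3.MagB.ex (s * a) * ((Pool.Agent.H506R3.MagB.uu 1 s : ℝ) : ℂ)).re = _
    rw [Complex.re_mul_ofReal, Pool.Agent.H506R3.MagB.ex_re, mul_comm s a]
    unfold Pool.Agent.H506R3.MagB.uu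
    simp
  rw [h3] at h2
  simp only [Complex.ofReal_re, mul_one, one_mul] at h2
  have h4 : ∀ u : ℝ, Real.cos (a * u) * ((Real.pi)⁻¹ * (1 + u ^ 2)⁻¹) =
      (Real.pi)⁻¹ * (Real.cos (a * u) * (1 + u ^ 2)⁻¹) := fun u => by ring
  simp_rw [h4]
  rw [integral_const_mul, h2]
  field_simp

/-- `E exp(-a²/(2W²)) = exp(-|a|)` -/
theorem mix1 (a : ℝ) : ∫ w : ℝ, Real.exp (-(a ^ 2 / (2 * w ^ 2))) ∂(gaussianReal 0 1) =
    Real.exp (-|a|) := by
  rw [integral_gaussianReal_eq_integral_smul one_ne_zero]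
  have h1 : ∀ᵐ w : ℝ, gaussianPDFReal 0 1 w • Real.exp (-(a ^ 2 / (2 * w ^ 2))) =
      ∫ u : ℝ, Real.cos (a * u) * GG w u := by
    have hne : ∀ᵐ w : ℝ, w ≠ 0 := by
      rw [ae_iff]
      simp
    filter_upwards [hne] with w hw
    have e1 := Measure.integral_comp_mul_left (fun z => Real.cos (a / w * z) * gd z) w
    rw [cos_gauss] at e1
    have e2 : ∀ u : ℝ, Real.cos (a / w * (w * u)) = Real.cos (a * u) := by
      intro u; congr 1; field_simp
    simp_rw [e2] at e1
    have e3 : ∀ u : ℝ, Real.cos (a * u) * GG w u =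
        (gd w * |w|) * (Real.cos (a * u) * gd (w * u)) := fun u => by unfold GG; ring
    simp_rw [e3]
    rw [integral_const_mul, e1, smul_eq_mul, smul_eq_mul]
    have e4 : (a / w) ^ 2 / 2 = a ^ 2 / (2 * w ^ 2) := by field_simp
    rw [e4, abs_inv]
    have : |w| ≠ 0 := abs_ne_zero.2 hw
    rw [show gaussianPDFReal 0 1 w = gd w from rfl]
    field_simp
  rw [integral_congr_ae h1]
  have hint : Integrable (Function.uncurry fun w u => Real.cos (a * u) * GG w u)
      ((volume : Measure ℝ).prod volume) := by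
    refine GG_prod.bdd_mul (c := 1) (f := fun p : ℝ × ℝ => Real.cos (a * p.2)) ?_
      (Eventually.of_forall fun s => ?_)
    · exact (Continuous.aestronglyMeasurable (by fun_prop))
    · rw [Real.norm_eq_abs]; exact Real.abs_cos_le_one _
  rw [integral_integral_swap hint]
  have h2 : ∀ u : ℝ, ∫ w : ℝ, Real.cos (a * u) * GG w u =
      Real.cos (a * u) * ((Real.pi)⁻¹ * (1 + u ^ 2)⁻¹) := by
    intro u
    rw [integral_const_mul, (GG_int u).2]
  simp_rw [h2]
  exact cos_cauchy a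

end Pool.Agent.R755.Mx
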