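import Pool.Agent.R755.Mx.Two

/-!
# The maximising measure on a ball of dimension three
-/

set_option autoImplicit false

namespace Pool.Agent.R755.Mx

open MeasureTheory ProbabilityTheory Set Filter Topology Metric
open scoped ENNReal

/-- potential -/
noncomputable def pot (μ : Measure (EE 3)) (x : EE 3) : ℝ := ∫ y, Real.exp (-‖x - y‖) ∂μ

theorem pot_int (μ : Measure (EE 3)) [IsFiniteMeasure μ] (x : EE 3) :
    Integrable (fun y => Real.exp (-‖x - y‖)) μ := by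
  refine Integrable.of_bound (C := 1) (by fun_prop) (Eventually.of_forall fun y => ?_)
  rw [Real.norm_eq_abs, Real.abs_exp]
  exact Real.exp_le_one_iff.2 (by simp)

theorem pot_cont (μ : Measure (EE 3)) [IsFiniteMeasure μ] : Continuous (pot μ) := by
  unfold pot
  apply continuous_of_dominated (bound := fun _ => 1)
  · intro t
    exact (pot_int μ t).1
  · intro t
    refine Eventually.of_forall fun y => ?_
    rw [Real.norm_eq_abs, Real.abs_exp]
    exact Real.exp_le_one_iff.2 (by simp)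
  · exact integrable_const _
  · exact Eventually.of_forall fun x => by fun_prop

theorem pot_ext {μ : Measure (EE 3)} [IsFiniteMeasure μ] {R c : ℝ} (hR : 0 < R)
    (h : ∀ x, x ≠ 0 → ‖x‖ ≤ R → c ≤ pot μ x) : ∀ x, ‖x‖ ≤ R → c ≤ pot μ x := by
  intro x hx
  by_cases hx0 : x = 0
  · rw [hx0]
    have h1 : Tendsto (pot μ) (𝓝[≠] (0 : EE 3)) (𝓝 (pot μ 0)) :=
      (pot_cont μ).continuousAt.continuousWithinAt
    apply ge_of_tendsto h1
    have h2 : ∀ᶠ x in 𝓝[≠] (0 : EE 3), x ∈ ball (0 : EE 3) R :=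
      mem_nhdsWithin_of_mem_nhds (ball_mem_nhds _ hR)
    filter_upwards [h2, self_mem_nhdsWithin] with y hy hy0
    exact h y hy0 (by simpa using (mem_ball_zero_iff.1 hy).le)
  · exact h x hx0 hx

theorem En_pot (μ : Measure (EE 3)) : En μ μ = ∫ x, pot μ x ∂μ := rfl

/-! ### the single sphere -/

/-- value of the potential on the sphere -/
noncomputable def cS (R : ℝ) : ℝ := (1 - (1 + 2 * R) * Real.exp (-(2 * R))) / (2 * R ^ 2)

theorem sph_norm {s : ℝ} (hs : 0 < s) : ∀ᵐ x ∂(sph s), ‖x‖ = s := by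
  unfold sph
  rw [ae_map_iff (sph_meas s).aemeasurable (measurableSet_eq_fun (by fun_prop) (by fun_prop))]
  refine Eventually.of_forall fun θ => ?_
  have hθ : ‖(θ : EE 3)‖ = 1 := by simp
  rw [norm_smul, hθ, Real.norm_eq_abs, abs_of_pos hs, mul_one]

theorem pot_sphere_ge {R : ℝ} (hR : 0 < R) (hS : SS R ≤ 0) :
    ∀ x : EE 3, ‖x‖ ≤ R → cS R ≤ pot (sph R) x := by
  apply pot_ext hR
  intro x hx0 hx
  unfold pot
  rw [pot_sph hx0 hR]
  have hr : 0 < ‖x‖ := norm_pos_iff.2 hx0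
  set r := ‖x‖ with hrdef
  set κ := (1 - (1 + 2 * R) * Real.exp (-(2 * R))) / R with hκ
  have hκR : κ * R = 1 - (1 + 2 * R) * Real.exp (-(2 * R)) := div_mul_cancel₀ _ hR.ne'
  have h := FF_nonneg hκR hR hS hr.le hx
  have e1 : mm (r - R) - mm (r + R) = FF R κ r + κ * r := by
    unfold mm FF
    rw [abs_of_nonpos (by linarith : r - R ≤ 0), abs_of_nonneg (by linarith : 0 ≤ r + R), neg_neg]
    ring
  rw [e1, le_div_iff₀ (by positivity)]
  have e2 : cS R * (2 * r * R) = κ * r := by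
    unfold cS
    rw [hκ]
    field_simp
  rw [e2]; linarith

theorem pot_sphere_eq {R : ℝ} (hR : 0 < R) {x : EE 3} (hx : ‖x‖ = R) : pot (sph R) x = cS R := by
  have hx0 : x ≠ 0 := norm_pos_iff.1 (by rw [hx]; exact hR)
  unfold pot
  rw [pot_sph hx0 hR, hx]
  unfold mm cS
  rw [sub_self, abs_zero, neg_zero, Real.exp_zero, abs_of_pos (by linarith : 0 < R + R),
    show R + R = 2 * R by ring]
  field_simp
  ring

/-! ### ball and spheres -/

noncomputable def bet (R ρ : ℝ) : ℝ := ρ / 2 * (ρ + 1 - (ρ + 2) / (R - ρ))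

noncomputable def gamm (R ρ : ℝ) : ℝ := R / 2 * Real.exp (R - ρ) * ((ρ + 2) / (R - ρ))

noncomputable def mas (R ρ : ℝ) : ℝ := ρ ^ 3 / 6 + bet R ρ + gamm R ρ

/-- the unnormalised measure -/
noncomputable def ww (R ρ : ℝ) : Measure (EE 3) :=
  ENNReal.ofReal (1 / (8 * Real.pi)) • volume.restrict (closedBall (0 : EE 3) ρ) +
    ENNReal.ofReal (bet R ρ) • sph ρ + ENNReal.ofReal (gamm R ρ) • sph R

/-- the normalised measure -/
noncomputable def mu (R ρ : ℝ) : Measure (EE 3) := (ENNReal.ofReal (mas R ρ))⁻¹ • ww R ρ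

instance restr_fin (ρ : ℝ) : IsFiniteMeasure (volume.restrict (closedBall (0 : EE 3) ρ)) :=
  ⟨by rw [Measure.restrict_apply_univ]; exact measure_closedBall_lt_top⟩

instance ww_fin (R ρ : ℝ) : IsFiniteMeasure (ww R ρ) := by
  unfold ww
  have : IsFiniteMeasure (ENNReal.ofReal (1 / (8 * Real.pi)) •
      volume.restrict (closedBall (0 : EE 3) ρ)) := Measure.smul_finite _ ENNReal.ofReal_ne_top
  have : IsFiniteMeasure (ENNReal.ofReal (bet R ρ) • sph ρ) :=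
    Measure.smul_finite _ ENNReal.ofReal_ne_top
  have : IsFiniteMeasure (ENNReal.ofReal (gamm R ρ) • sph R) :=
    Measure.smul_finite _ ENNReal.ofReal_ne_top
  infer_instance

theorem bet_pos {R ρ : ℝ} (h0 : 0 < ρ) (h1 : ρ < R) (hT : TT R ρ = 0) : 0 < bet R ρ := by
  have hD : 0 < R - ρ := sub_pos.2 h1
  have : 0 < ρ + 1 - (ρ + 2) / (R - ρ) := by
    by_contra hcon
    push Not at hcon
    have := VV_neg (g := (ρ + 2) / (R - ρ)) h0 hcon hD
    rw [← TT_eq h1, hT] at this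
    exact lt_irrefl _ this
  unfold bet
  positivity

theorem gamm_pos {R ρ : ℝ} (h0 : 0 < ρ) (h1 : ρ < R) : 0 < gamm R ρ := by
  have hD : 0 < R - ρ := sub_pos.2 h1
  have hR : 0 < R := h0.trans h1
  unfold gamm
  positivity

theorem pot_ww {R ρ : ℝ} (h0 : 0 < ρ) (h1 : ρ < R) (hT : TT R ρ = 0) {x : EE 3} (hx : x ≠ 0) :
    pot (ww R ρ) x = (JJ ‖x‖ ρ / 2 + bet R ρ / ρ * (mm (‖x‖ - ρ) - mm (‖x‖ + ρ)) +
      gamm R ρ / R * (mm (‖x‖ - R) - mm (‖x‖ + R))) / (2 * ‖x‖) := by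
  have hb := bet_pos h0 h1 hT
  have hg := gamm_pos h0 h1
  have hR : 0 < R := h0.trans h1
  have hr : 0 < ‖x‖ := norm_pos_iff.2 hx
  unfold pot ww
  have f1 : IsFiniteMeasure (ENNReal.ofReal (1 / (8 * Real.pi)) •
      volume.restrict (closedBall (0 : EE 3) ρ)) := Measure.smul_finite _ ENNReal.ofReal_ne_top
  have f2 : IsFiniteMeasure (ENNReal.ofReal (bet R ρ) • sph ρ) :=
    Measure.smul_finite _ ENNReal.ofReal_ne_top
  have f3 : IsFiniteMeasure (ENNReal.ofReal (gamm R ρ) • sph R) :=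
    Measure.smul_finite _ ENNReal.ofReal_ne_top
  rw [integral_add_measure (pot_int _ x) (pot_int _ x),
    integral_add_measure (pot_int _ x) (pot_int _ x), integral_smul_measure, integral_smul_measure,
    integral_smul_measure, pot_sph hx h0, pot_sph hx hR, pot_ball hx h0,
    ENNReal.toReal_ofReal (by positivity), ENNReal.toReal_ofReal hb.le,
    ENNReal.toReal_ofReal hg.le]
  simp only [smul_eq_mul]
  have hpi := Real.pi_pos
  field_simp
  ring

/-- the algebraic identities between the weights -/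
theorem weights {R ρ : ℝ} (h0 : 0 < ρ) (h1 : ρ < R) :
    bet R ρ / ρ = (ρ + 1 - (ρ + 2) / (R - ρ)) / 2 ∧
    gamm R ρ / R = Real.exp (R - ρ) * ((ρ + 2) / (R - ρ)) / 2 ∧
    (ρ + 2) / (R - ρ) * (R - ρ) = ρ + 2 := by
  have hR : 0 < R := h0.trans h1
  have hD : R - ρ ≠ 0 := (sub_pos.2 h1).ne'
  refine ⟨?_, ?_, div_mul_cancel₀ _ hD⟩
  · unfold bet; field_simp
  · unfold gamm; field_simp

theorem pot_in {R ρ : ℝ} (h0 : 0 < ρ) (h1 : ρ < R) (hT : TT R ρ = 0) {x : EE 3} (hx : x ≠ 0)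
    (hxρ : ‖x‖ ≤ ρ) : pot (ww R ρ) x = 1 := by
  have hr : 0 < ‖x‖ := norm_pos_iff.2 hx
  rw [pot_ww h0 h1 hT hx]
  obtain ⟨e1, e2, e3⟩ := weights h0 h1
  rw [e1, e2, JJ_in hr.le hxρ]
  set r := ‖x‖ with hrdef
  set g := (ρ + 2) / (R - ρ) with hg
  unfold mm
  rw [abs_of_nonpos (by linarith : r - ρ ≤ 0), abs_of_nonneg (by linarith : 0 ≤ r + ρ),
    abs_of_nonpos (by linarith : r - R ≤ 0), abs_of_nonneg (by linarith : 0 ≤ r + R),
    neg_neg, neg_neg, div_eq_one_iff_eq (by positivity)]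
  have a1 : Real.exp (R - ρ) * Real.exp (r - R) = Real.exp (r - ρ) := by
    rw [← Real.exp_add]; congr 1; ring
  have a2 : Real.exp (R - ρ) * Real.exp (-(r + R)) = Real.exp (-(r + ρ)) := by
    rw [← Real.exp_add]; congr 1; ring
  linear_combination (g / 2 * (1 - (r - R))) * a1 - (g / 2 * (1 + (r + R))) * a2 +
    (Real.exp (r - ρ) / 2 - Real.exp (-(r + ρ)) / 2) * e3

theorem pot_out {R ρ : ℝ} (h0 : 0 < ρ) (h1 : ρ < R) (hT : TT R ρ = 0) {x : EE 3}
    (hxρ : ρ ≤ ‖x‖) (hxR : ‖x‖ ≤ R) :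
    pot (ww R ρ) x = 1 + VV ρ ((ρ + 2) / (R - ρ)) (‖x‖ - ρ) / (2 * ‖x‖) := by
  have hr : 0 < ‖x‖ := h0.trans_le hxρ
  have hx : x ≠ 0 := norm_pos_iff.1 hr
  rw [pot_ww h0 h1 hT hx]
  obtain ⟨e1, e2, e3⟩ := weights h0 h1
  rw [e1, e2, JJ_out h0.le hxρ]
  set r := ‖x‖ with hrdef
  set g := (ρ + 2) / (R - ρ) with hg
  unfold mm VV
  rw [abs_of_nonneg (by linarith : 0 ≤ r - ρ), abs_of_nonneg (by linarith : 0 ≤ r + ρ),
    abs_of_nonpos (by linarith : r - R ≤ 0), abs_of_nonneg (by linarith : 0 ≤ r + R), neg_neg]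
  have a1 : Real.exp (R - ρ) * Real.exp (r - R) = Real.exp (r - ρ) := by
    rw [← Real.exp_add]; congr 1; ring
  have a2 : Real.exp (R - ρ) * Real.exp (-(r + R)) = Real.exp (-(r + ρ)) := by
    rw [← Real.exp_add]; congr 1; ring
  have a3 : Real.exp (ρ - r) = Real.exp (-(r - ρ)) := by congr 1; ring
  rw [a3]
  field_simp
  linear_combination (g * (1 - (r - R))) * a1 - (g * (1 + (r + R))) * a2 +
    (Real.exp (r - ρ) - Real.exp (-(r + ρ))) * e3

theorem pot_ge {R ρ : ℝ} (h0 : 0 < ρ) (h1 : ρ < R) (hT : TT R ρ = 0) :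
    ∀ x : EE 3, ‖x‖ ≤ R → 1 ≤ pot (ww R ρ) x := by
  have hR : 0 < R := h0.trans h1
  apply pot_ext hR
  intro x hx0 hx
  rcases le_total ‖x‖ ρ with h | h
  · rw [pot_in h0 h1 hT hx0 h]
  · rw [pot_out h0 h1 hT h hx]
    have hr : 0 < ‖x‖ := norm_pos_iff.2 hx0
    have h2 : 0 ≤ VV ρ ((ρ + 2) / (R - ρ)) (‖x‖ - ρ) := by
      apply VV_nonneg h0 (L := R - ρ) _ (by linarith) (by linarith)
      rw [← TT_eq h1, hT]
    have : 0 ≤ VV ρ ((ρ + 2) / (R - ρ)) (‖x‖ - ρ) / (2 * ‖x‖) := by positivity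
    linarith

theorem pot_outer {R ρ : ℝ} (h0 : 0 < ρ) (h1 : ρ < R) (hT : TT R ρ = 0) {x : EE 3}
    (hx : ‖x‖ = R) : pot (ww R ρ) x = 1 := by
  rw [pot_out h0 h1 hT (by rw [hx]; exact h1.le) hx.le, hx, ← TT_eq h1, hT]
  simp

theorem ww_univ {R ρ : ℝ} (h0 : 0 < ρ) (h1 : ρ < R) (hT : TT R ρ = 0) :
    ww R ρ univ = ENNReal.ofReal (mas R ρ) := by
  have hb := bet_pos h0 h1 hT
  have hg := gamm_pos h0 h1
  unfold ww mas
  simp only [Measure.add_apply, Measure.smul_apply, smul_eq_mul, Measure.restrict_apply_univ,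
    measure_univ, mul_one]
  rw [EuclideanSpace.volume_closedBall_fin_three, ← ENNReal.ofReal_pow h0.le,
    ← ENNReal.ofReal_mul (by positivity), ← ENNReal.ofReal_mul (by positivity),
    ← ENNReal.ofReal_add (by positivity) hb.le, ← ENNReal.ofReal_add (by positivity) hg.le]
  congr 3
  have hpi := Real.pi_pos
  field_simp
  norm_num

theorem mas_pos {R ρ : ℝ} (h0 : 0 < ρ) (h1 : ρ < R) (hT : TT R ρ = 0) : 0 < mas R ρ := by
  have hb := bet_pos h0 h1 hT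
  have hg := gamm_pos h0 h1
  unfold mas
  positivity

theorem mu_prob {R ρ : ℝ} (h0 : 0 < ρ) (h1 : ρ < R) (hT : TT R ρ = 0) :
    IsProbabilityMeasure (mu R ρ) := by
  constructor
  unfold mu
  rw [Measure.smul_apply, ww_univ h0 h1 hT, smul_eq_mul]
  apply ENNReal.inv_mul_cancel
  · rw [ne_eq, ENNReal.ofReal_eq_zero, not_le]; exact mas_pos h0 h1 hT
  · exact ENNReal.ofReal_ne_top

theorem pot_mu {R ρ : ℝ} (h0 : 0 < ρ) (h1 : ρ < R) (hT : TT R ρ = 0) (x : EE 3) :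
    pot (mu R ρ) x = (mas R ρ)⁻¹ * pot (ww R ρ) x := by
  unfold pot mu
  rw [integral_smul_measure, ENNReal.toReal_inv, ENNReal.toReal_ofReal (mas_pos h0 h1 hT).le,
    smul_eq_mul]

/-- almost every point is where it should be -/
theorem ww_ae {R ρ : ℝ} (h0 : 0 < ρ) (h1 : ρ < R) :
    ∀ᵐ x ∂(ww R ρ), x ≠ 0 ∧ (‖x‖ ≤ ρ ∨ ‖x‖ = R) := by
  have hR : 0 < R := h0.trans h1
  unfold ww
  rw [ae_add_measure_iff, ae_add_measure_iff]
  refine ⟨⟨?_, ?_⟩, ?_⟩
  · apply Measure.ae_smul_measure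
    have e1 : ∀ᵐ x ∂(volume.restrict (closedBall (0 : EE 3) ρ)), x ≠ 0 := by
      apply ae_restrict_of_ae
      rw [ae_iff]; simp
    filter_upwards [e1, ae_restrict_mem measurableSet_closedBall] with x hx hx2
    exact ⟨hx, Or.inl (by simpa using hx2)⟩
  · apply Measure.ae_smul_measure
    filter_upwards [sph_norm h0] with x hx
    exact ⟨norm_pos_iff.1 (by rw [hx]; exact h0), Or.inl hx.le⟩
  · apply Measure.ae_smul_measure
    filter_upwards [sph_norm hR] with x hx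
    exact ⟨norm_pos_iff.1 (by rw [hx]; exact hR), Or.inr hx⟩

theorem mu_ae {R ρ : ℝ} (h0 : 0 < ρ) (h1 : ρ < R) :
    ∀ᵐ x ∂(mu R ρ), x ≠ 0 ∧ (‖x‖ ≤ ρ ∨ ‖x‖ = R) :=
  Measure.ae_smul_measure (ww_ae h0 h1) _

theorem pot_mu_ae {R ρ : ℝ} (h0 : 0 < ρ) (h1 : ρ < R) (hT : TT R ρ = 0) :
    ∀ᵐ x ∂(mu R ρ), pot (mu R ρ) x = (mas R ρ)⁻¹ := by
  filter_upwards [mu_ae h0 h1] with x hx
  rw [pot_mu h0 h1 hT]
  rcases hx.2 with h | h
  · rw [pot_in h0 h1 hT hx.1 h, mul_one]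
  · rw [pot_outer h0 h1 hT h, mul_one]

end Pool.Agent.R755.Mx
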