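import Pool.Agent.R755.Mx.Cau
import Pool.Agent.R755.Bal.Pos

/-!
# The energy of the kernel `exp(-|x-y|)` is a positive definite quadratic form
-/

set_option autoImplicit false

namespace Pool.Agent.R755.Mx

open MeasureTheory ProbabilityTheory Set Filter Topology
open scoped ENNReal

abbrev EE (n : ℕ) := EuclideanSpace ℝ (Fin n)

/-- the multivariate Cauchy law -/
noncomputable def ML (n : ℕ) : Measure (EE n) :=
  ((stdGaussian (EE n)).prod (gaussianReal 0 1)).map (fun p : EE n × ℝ => p.2⁻¹ • p.1)

theorem ML_meas (n : ℕ) : Measurable (fun p : EE n × ℝ => p.2⁻¹ • p.1) := by fun_prop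

instance ML_prob (n : ℕ) : IsProbabilityMeasure (ML n) :=
  Measure.isProbabilityMeasure_map (ML_meas n).aemeasurable

theorem charFun_ML (n : ℕ) (t : EE n) : charFun (ML n) t = ((Real.exp (-‖t‖) : ℝ) : ℂ) := by
  rw [charFun_apply]
  unfold ML
  rw [integral_map (ML_meas n).aemeasurable (by fun_prop)]
  have hint : Integrable (fun p : EE n × ℝ => Complex.exp ((inner ℝ (p.2⁻¹ • p.1) t : ℝ) * Complex.I))
      ((stdGaussian (EE n)).prod (gaussianReal 0 1)) := by
    refine Integrable.of_bound (C := 1) (by fun_prop) (Eventually.of_forall fun x => ?_)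
    exact (Complex.norm_exp_ofReal_mul_I _).le
  rw [integral_prod_symm _ hint]
  have h1 : ∀ w : ℝ, ∫ z : EE n, Complex.exp ((inner ℝ ((z, w).2⁻¹ • (z, w).1) t : ℝ) * Complex.I)
      ∂(stdGaussian (EE n)) = ((Real.exp (-(‖t‖ ^ 2 / (2 * w ^ 2))) : ℝ) : ℂ) := by
    intro w
    have h2 := charFun_stdGaussian (E := EE n) (w⁻¹ • t)
    rw [charFun_apply] at h2
    have h3 : ∀ z : EE n, Complex.exp ((inner ℝ ((z, w).2⁻¹ • (z, w).1) t : ℝ) * Complex.I) =
        Complex.exp ((inner ℝ z (w⁻¹ • t) : ℝ) * Complex.I) := by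
      intro z
      simp only
      rw [real_inner_smul_left, real_inner_smul_right]
    simp_rw [h3]
    rw [h2, Complex.ofReal_exp]
    congr 1
    rw [norm_smul, norm_inv, Real.norm_eq_abs]
    push_cast
    have : ((|w| : ℝ) : ℂ) ^ 2 = (w : ℂ) ^ 2 := by
      rw [← Complex.ofReal_pow, sq_abs, Complex.ofReal_pow]
    rw [mul_pow, inv_pow, this]
    field_simp
  simp_rw [h1]
  rw [integral_complex_ofReal, mix1, abs_norm]

/-- exponential -/
noncomputable def ee {n : ℕ} (x t : EE n) : ℂ := Complex.exp ((inner ℝ x t : ℝ) * Complex.I)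

theorem norm_ee {n : ℕ} (x t : EE n) : ‖ee x t‖ = 1 := Complex.norm_exp_ofReal_mul_I _

theorem ee_sub {n : ℕ} (x y t : EE n) : ee (x - y) t = ee x t * (starRingEnd ℂ) (ee y t) := by
  unfold ee
  rw [← Complex.exp_conj, ← Complex.exp_add, inner_sub_left]
  congr 1
  simp
  ring

theorem ee_comm {n : ℕ} (x t : EE n) : ee x t = ee t x := by
  unfold ee; rw [real_inner_comm]

theorem ee_cont {n : ℕ} : Continuous (Function.uncurry (ee (n := n))) := by
  unfold ee Function.uncurry; fun_prop

/-- mutual energy -/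
noncomputable def En {n : ℕ} (μ ν : Measure (EE n)) : ℝ :=
  ∫ x, ∫ y, Real.exp (-‖x - y‖) ∂ν ∂μ

theorem En_eq {n : ℕ} (μ ν : Measure (EE n)) [IsFiniteMeasure μ] [IsFiniteMeasure ν] :
    ((En μ ν : ℝ) : ℂ) = ∫ t, charFun μ t * (starRingEnd ℂ) (charFun ν t) ∂(ML n) := by
  have cf : ∀ (κ : Measure (EE n)) (t : EE n), charFun κ t = ∫ x, ee x t ∂κ := fun κ t =>
    charFun_apply t
  have hk : ∀ x y : EE n, ((Real.exp (-‖x - y‖) : ℝ) : ℂ) =
      ∫ t, ee x t * (starRingEnd ℂ) (ee y t) ∂(ML n) := by
    intro x y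
    rw [← charFun_ML, cf]
    congr 1
    funext t
    rw [ee_comm, ee_sub]
  have c1 : Continuous (starRingEnd ℂ) := Complex.continuous_conj
  have hc1 : Continuous (Function.uncurry (ee (n := n))) := ee_cont
  unfold En
  rw [← integral_complex_ofReal]
  have s1 : ∀ x : EE n, ((∫ y, Real.exp (-‖x - y‖) ∂ν : ℝ) : ℂ) =
      ∫ t, ee x t * (starRingEnd ℂ) (charFun ν t) ∂(ML n) := by
    intro x
    rw [← integral_complex_ofReal]
    simp_rw [hk]
    rw [integral_integral_swap]
    · congr 1
      funext t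
      rw [integral_const_mul, cf, integral_conj]
    · refine Integrable.of_bound (C := 1) ?_ (Eventually.of_forall fun p => ?_)
      · apply Continuous.aestronglyMeasurable
        apply Continuous.mul
        · exact hc1.comp (by fun_prop : Continuous fun p : EE n × EE n => (x, p.2))
        · exact c1.comp (hc1.comp (by fun_prop : Continuous fun p : EE n × EE n => (p.1, p.2)))
      · simp only [Function.uncurry, norm_mul, RCLike.norm_conj, norm_ee, mul_one, le_refl]
  simp_rw [s1]
  rw [integral_integral_swap]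
  · congr 1
    funext t
    rw [integral_mul_const, ← cf]
  · refine Integrable.of_bound (C := (ν univ).toReal) ?_ (Eventually.of_forall fun p => ?_)
    · have m1 : StronglyMeasurable (charFun ν) := by
        have : Measurable (charFun ν) := by fun_prop
        exact this.stronglyMeasurable
      apply AEStronglyMeasurable.mul
      · exact hc1.aestronglyMeasurable
      · exact (c1.comp_stronglyMeasurable (m1.comp_measurable measurable_snd)).aestronglyMeasurable
    · simp only [Function.uncurry, norm_mul, RCLike.norm_conj, norm_ee, one_mul]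
      exact norm_charFun_le _

instance ML_open (n : ℕ) : (ML n).IsOpenPosMeasure := by
  constructor
  intro U hU hne
  have h1 : (gaussianReal 0 1).IsOpenPosMeasure :=
    (gaussianReal_absolutelyContinuous' 0 one_ne_zero).isOpenPosMeasure
  have h2 : (stdGaussian (EE n)).IsOpenPosMeasure := by
    constructor
    intro V hV hVne h0
    have := Pool.Agent.R755.Bal.gauss_pos V (by rwa [hV.interior_eq])
    rw [Measure.real, h0] at this
    simp at this
  have h3 : (stdGaussian (EE n)).prod (gaussianReal 0 1)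
      ((fun p : EE n × ℝ => p.2⁻¹ • p.1) ⁻¹' U ∩ {p | p.2 ≠ 0}) ≠ 0 := by
    have hopen : IsOpen ((fun p : EE n × ℝ => p.2⁻¹ • p.1) ⁻¹' U ∩ {p | p.2 ≠ 0}) := by
      have ho : IsOpen {p : EE n × ℝ | p.2 ≠ 0} := isOpen_ne_fun continuous_snd continuous_const
      have hc : ContinuousOn (fun p : EE n × ℝ => p.2⁻¹ • p.1) {p | p.2 ≠ 0} :=
        (continuousOn_snd.inv₀ (fun p hp => hp)).smul continuousOn_fst
      rw [inter_comm]
      exact hc.isOpen_inter_preimage ho hU
    obtain ⟨x, hx⟩ := hne
    exact hopen.measure_ne_zero _ ⟨(x, 1), by simpa using hx, by simp⟩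
  unfold ML
  rw [Measure.map_apply (ML_meas n) hU.measurableSet]
  intro h0
  exact h3 (measure_mono_null inter_subset_left h0)

/-- the squared distance in the energy norm -/
noncomputable def DD {n : ℕ} (μ ν : Measure (EE n)) : ℝ := En μ μ + En ν ν - 2 * En μ ν

theorem charFun_cont {n : ℕ} (μ : Measure (EE n)) [IsFiniteMeasure μ] : Continuous (charFun μ) := by
  have : charFun μ = fun t => ∫ x, ee x t ∂μ := funext fun t => charFun_apply t
  rw [this]
  apply continuous_of_dominated (bound := fun _ => 1)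
  · intro t
    apply Continuous.aestronglyMeasurable
    exact ee_cont.comp (by fun_prop : Continuous fun x : EE n => (x, t))
  · intro t
    exact Eventually.of_forall fun x => (norm_ee x t).le
  · exact integrable_const _
  · exact Eventually.of_forall fun x =>
      ee_cont.comp (by fun_prop : Continuous fun t : EE n => (x, t))

theorem DD_eq {n : ℕ} (μ ν : Measure (EE n)) [IsFiniteMeasure μ] [IsFiniteMeasure ν] :
    DD μ ν = ∫ t, ‖charFun μ t - charFun ν t‖ ^ 2 ∂(ML n) := by
  have bd : ∀ (κ κ' : Measure (EE n)) [IsFiniteMeasure κ] [IsFiniteMeasure κ'],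
      Integrable (fun t => charFun κ t * (starRingEnd ℂ) (charFun κ' t)) (ML n) := by
    intro κ κ' _ _
    refine Integrable.of_bound (C := (κ univ).toReal * (κ' univ).toReal) ?_
      (Eventually.of_forall fun p => ?_)
    · apply Continuous.aestronglyMeasurable
      exact (charFun_cont κ).mul (Complex.continuous_conj.comp (charFun_cont κ'))
    · rw [norm_mul, RCLike.norm_conj]
      exact mul_le_mul (norm_charFun_le _) (norm_charFun_le _) (norm_nonneg _)
        ENNReal.toReal_nonneg
  have re : ∀ (κ κ' : Measure (EE n)) [IsFiniteMeasure κ] [IsFiniteMeasure κ'],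
      En κ κ' = ∫ t, (charFun κ t * (starRingEnd ℂ) (charFun κ' t)).re ∂(ML n) := by
    intro κ κ' _ _
    have h1 := congrArg Complex.re (En_eq κ κ')
    rw [Complex.ofReal_re] at h1
    rw [h1]
    exact (integral_re (bd κ κ') (𝕜 := ℂ)).symm
  unfold DD
  have bre : ∀ (κ κ' : Measure (EE n)) [IsFiniteMeasure κ] [IsFiniteMeasure κ'],
      Integrable (fun t => (charFun κ t * (starRingEnd ℂ) (charFun κ' t)).re) (ML n) :=
    fun κ κ' _ _ => (bd κ κ').re
  have badd : Integrable (fun t => (charFun μ t * (starRingEnd ℂ) (charFun μ t)).re +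
      (charFun ν t * (starRingEnd ℂ) (charFun ν t)).re) (ML n) := (bre μ μ).add (bre ν ν)
  rw [re μ μ, re ν ν, re μ ν, ← integral_add (bre μ μ) (bre ν ν), ← integral_const_mul,
    ← integral_sub badd ((bre μ ν).const_mul 2)]
  congr 1
  funext t
  rw [← Complex.normSq_eq_norm_sq, Complex.normSq_apply]
  simp only [Complex.mul_re, Complex.conj_re, Complex.conj_im, Complex.sub_re, Complex.sub_im]
  ring

theorem DD_nonneg {n : ℕ} (μ ν : Measure (EE n)) [IsFiniteMeasure μ] [IsFiniteMeasure ν] :
    0 ≤ DD μ ν := by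
  rw [DD_eq]
  exact integral_nonneg fun t => by positivity

theorem DD_zero {n : ℕ} (μ ν : Measure (EE n)) [IsFiniteMeasure μ] [IsFiniteMeasure ν]
    (h : DD μ ν = 0) : μ = ν := by
  rw [DD_eq] at h
  have hc : Continuous (fun t => ‖charFun μ t - charFun ν t‖ ^ 2) := by
    have := charFun_cont μ
    have := charFun_cont ν
    fun_prop
  have hint : Integrable (fun t => ‖charFun μ t - charFun ν t‖ ^ 2) (ML n) := by
    refine Integrable.of_bound (C := ((μ univ).toReal + (ν univ).toReal) ^ 2)
      hc.aestronglyMeasurable (Eventually.of_forall fun p => ?_)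
    rw [norm_pow, norm_norm]
    apply pow_le_pow_left₀ (norm_nonneg _)
    exact (norm_sub_le _ _).trans (add_le_add (norm_charFun_le _) (norm_charFun_le _))
  rw [integral_eq_zero_iff_of_nonneg (fun t => by positivity) hint] at h
  have h2 := (hc.ae_eq_iff_eq (ML n) continuous_const).1 h
  apply Measure.ext_of_charFun
  funext t
  have h3 : ‖charFun μ t - charFun ν t‖ ^ 2 = 0 := congrFun h2 t
  have h4 : ‖charFun μ t - charFun ν t‖ = 0 := by
    exact pow_eq_zero_iff two_ne_zero |>.1 h3
  exact sub_eq_zero.1 (norm_eq_zero.1 h4)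

/-- optimality criterion -/
theorem optimal {n : ℕ} (X : Set (EE n)) (μ₀ : Measure (EE n)) [IsProbabilityMeasure μ₀] (c : ℝ)
    (h1 : ∀ x ∈ X, c ≤ ∫ y, Real.exp (-‖x - y‖) ∂μ₀)
    (h2 : ∀ᵐ x ∂μ₀, ∫ y, Real.exp (-‖x - y‖) ∂μ₀ = c)
    (μ : Measure (EE n)) [IsProbabilityMeasure μ] (hμ : μ Xᶜ = 0) :
    En μ₀ μ₀ ≤ En μ μ ∧ (En μ μ ≤ En μ₀ μ₀ → μ = μ₀) := by
  have e0 : En μ₀ μ₀ = c := by
    unfold En
    rw [integral_congr_ae h2]
    simp
  have e1 : c ≤ En μ μ₀ := by
    unfold En
    have hb : Integrable (fun x => ∫ y, Real.exp (-‖x - y‖) ∂μ₀) μ := by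
      refine Integrable.of_bound (C := 1) ?_ (Eventually.of_forall fun x => ?_)
      · apply StronglyMeasurable.aestronglyMeasurable
        apply StronglyMeasurable.integral_prod_right (f := fun x y => Real.exp (-‖x - y‖))
        apply Continuous.stronglyMeasurable
        fun_prop
      · rw [Real.norm_eq_abs, abs_of_nonneg (integral_nonneg fun y => (Real.exp_pos _).le)]
        calc ∫ y, Real.exp (-‖x - y‖) ∂μ₀ ≤ ∫ y, 1 ∂μ₀ := by
              apply integral_mono_of_nonneg (Eventually.of_forall fun y => (Real.exp_pos _).le)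
                (integrable_const _) (Eventually.of_forall fun y => ?_)
              exact Real.exp_le_one_iff.2 (by simp)
          _ = 1 := by simp
    calc c = ∫ x, c ∂μ := by simp
      _ ≤ _ := by
        apply integral_mono_ae (integrable_const _) hb
        have : ∀ᵐ x ∂μ, x ∈ X := by rw [ae_iff]; exact hμ
        filter_upwards [this] with x hx
        exact h1 x hx
  have hD := DD_nonneg μ μ₀
  have hDe : DD μ μ₀ = En μ μ + En μ₀ μ₀ - 2 * En μ μ₀ := rfl
  constructor
  · linarith
  · intro h
    apply DD_zero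
    linarith

end Pool.Agent.R755.Mx
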