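import Pool.Agent.R755.Mx.Pot

/-!
# One variable inequalities
-/

set_option autoImplicit false

namespace Pool.Agent.R755.Mx

open MeasureTheory Set Filter Topology

/-! ### closed forms -/

theorem int_plus (r a b : ℝ) (h : ∀ s ∈ uIcc a b, 0 ≤ r + s) :
    ∫ s in a..b, s * mm (r + s) =
      Real.exp (-(r + b)) * (-b ^ 2 - (3 + r) * b - (3 + r)) -
        Real.exp (-(r + a)) * (-a ^ 2 - (3 + r) * a - (3 + r)) := by
  have e : ∫ s in a..b, s * mm (r + s) = ∫ s in a..b, s * ((1 + (r + s)) * Real.exp (-(r + s))) := by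
    apply intervalIntegral.integral_congr
    intro s hs
    simp only [mm, abs_of_nonneg (h s hs)]
  rw [e]
  have hd : ∀ s ∈ uIcc a b, HasDerivAt (fun s : ℝ => Real.exp (-(r + s)) *
      (-s ^ 2 - (3 + r) * s - (3 + r))) (s * ((1 + (r + s)) * Real.exp (-(r + s)))) s := by
    intro s _
    have h1 : HasDerivAt (fun s : ℝ => -(r + s)) (-1) s := ((hasDerivAt_id s).const_add r).neg
    have h2 : HasDerivAt (fun s : ℝ => -s ^ 2 - (3 + r) * s - (3 + r)) (-(2 * s) - (3 + r)) s := by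
      have := (((hasDerivAt_pow 2 s).neg).sub ((hasDerivAt_id s).const_mul (3 + r))).sub_const (3 + r)
      refine this.congr_deriv ?_
      norm_num
    refine (h1.exp.mul h2).congr_deriv ?_
    ring
  rw [intervalIntegral.integral_eq_sub_of_hasDerivAt hd
    (Continuous.intervalIntegrable (by fun_prop) _ _)]

theorem int_right (r a b : ℝ) (h : ∀ s ∈ uIcc a b, r ≤ s) :
    ∫ s in a..b, s * mm (r - s) =
      Real.exp (r - b) * (-b ^ 2 - (3 - r) * b - (3 - r)) -
        Real.exp (r - a) * (-a ^ 2 - (3 - r) * a - (3 - r)) := by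
  have e : ∫ s in a..b, s * mm (r - s) = ∫ s in a..b, s * ((1 + (s - r)) * Real.exp (r - s)) := by
    apply intervalIntegral.integral_congr
    intro s hs
    simp only [mm, abs_of_nonpos (sub_nonpos.2 (h s hs)), neg_sub]
  rw [e]
  have hd : ∀ s ∈ uIcc a b, HasDerivAt (fun s : ℝ => Real.exp (r - s) *
      (-s ^ 2 - (3 - r) * s - (3 - r))) (s * ((1 + (s - r)) * Real.exp (r - s))) s := by
    intro s _
    have h1 : HasDerivAt (fun s : ℝ => r - s) (-1) s := (hasDerivAt_id s).const_sub r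
    have h2 : HasDerivAt (fun s : ℝ => -s ^ 2 - (3 - r) * s - (3 - r)) (-(2 * s) - (3 - r)) s := by
      have := (((hasDerivAt_pow 2 s).neg).sub ((hasDerivAt_id s).const_mul (3 - r))).sub_const (3 - r)
      refine this.congr_deriv ?_
      norm_num
    refine (h1.exp.mul h2).congr_deriv ?_
    ring
  rw [intervalIntegral.integral_eq_sub_of_hasDerivAt hd
    (Continuous.intervalIntegrable (by fun_prop) _ _)]

theorem int_left (r a b : ℝ) (h : ∀ s ∈ uIcc a b, s ≤ r) :
    ∫ s in a..b, s * mm (r - s) =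
      Real.exp (b - r) * (-b ^ 2 + (3 + r) * b - (3 + r)) -
        Real.exp (a - r) * (-a ^ 2 + (3 + r) * a - (3 + r)) := by
  have e : ∫ s in a..b, s * mm (r - s) = ∫ s in a..b, s * ((1 + (r - s)) * Real.exp (s - r)) := by
    apply intervalIntegral.integral_congr
    intro s hs
    simp only [mm, abs_of_nonneg (sub_nonneg.2 (h s hs)), neg_sub]
  rw [e]
  have hd : ∀ s ∈ uIcc a b, HasDerivAt (fun s : ℝ => Real.exp (s - r) *
      (-s ^ 2 + (3 + r) * s - (3 + r))) (s * ((1 + (r - s)) * Real.exp (s - r))) s := by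
    intro s _
    have h1 : HasDerivAt (fun s : ℝ => s - r) 1 s := (hasDerivAt_id s).sub_const r
    have h2 : HasDerivAt (fun s : ℝ => -s ^ 2 + (3 + r) * s - (3 + r)) (-(2 * s) + (3 + r)) s := by
      have := (((hasDerivAt_pow 2 s).neg).add ((hasDerivAt_id s).const_mul (3 + r))).sub_const (3 + r)
      refine this.congr_deriv ?_
      norm_num
    refine (h1.exp.mul h2).congr_deriv ?_
    ring
  rw [intervalIntegral.integral_eq_sub_of_hasDerivAt hd
    (Continuous.intervalIntegrable (by fun_prop) _ _)]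

theorem ii (f : ℝ → ℝ) (hf : Continuous f) (a b : ℝ) : IntervalIntegrable f volume a b :=
  hf.intervalIntegrable _ _

theorem JJ_split (r ρ : ℝ) : JJ r ρ = (∫ s in (0:ℝ)..ρ, s * mm (r - s)) -
    ∫ s in (0:ℝ)..ρ, s * mm (r + s) := by
  unfold JJ
  have hm := mm_cont
  rw [← intervalIntegral.integral_sub (ii _ (by fun_prop) _ _) (ii _ (by fun_prop) _ _)]
  congr 1
  funext s
  ring

theorem JJ_out {r ρ : ℝ} (h0 : 0 ≤ ρ) (h : ρ ≤ r) : JJ r ρ =
    Real.exp (ρ - r) * (-ρ ^ 2 + (3 + r) * (ρ - 1)) +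
      Real.exp (-(r + ρ)) * (ρ ^ 2 + (3 + r) * (ρ + 1)) := by
  rw [JJ_split, int_left r 0 ρ (by
    intro s hs; rw [uIcc_of_le h0] at hs; linarith [hs.2]), int_plus r 0 ρ (by
    intro s hs; rw [uIcc_of_le h0] at hs; linarith [hs.1])]
  simp only [add_zero, zero_sub]
  ring

theorem JJ_in {r ρ : ℝ} (h0 : 0 ≤ r) (h : r ≤ ρ) : JJ r ρ = 4 * r +
    Real.exp (r - ρ) * (-ρ ^ 2 - (3 - r) * (ρ + 1)) +
      Real.exp (-(r + ρ)) * (ρ ^ 2 + (3 + r) * (ρ + 1)) := by
  have hm := mm_cont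
  rw [JJ_split, ← intervalIntegral.integral_add_adjacent_intervals (b := r)
    (ii _ (by fun_prop) _ _) (ii _ (by fun_prop) _ _), int_left r 0 r (by
    intro s hs; rw [uIcc_of_le h0] at hs; linarith [hs.2]), int_right r r ρ (by
    intro s hs; rw [uIcc_of_le h] at hs; linarith [hs.1]), int_plus r 0 ρ (by
    intro s hs; rw [uIcc_of_le (h0.trans h)] at hs; linarith [hs.1])]
  simp only [add_zero, zero_sub, sub_self, Real.exp_zero]
  ring

/-! ### the function `V` -/

section V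
variable (ρ g : ℝ)

noncomputable def VV (x : ℝ) : ℝ := -(2 * (ρ + x)) + (ρ + 2 + g - g * x) / 2 * Real.exp x +
  (3 * ρ - 2 - g + (2 * ρ - g) * x) / 2 * Real.exp (-x)

/-- `e^{-x} V(x)` -/
noncomputable def GV (x : ℝ) : ℝ := Real.exp (-x) * (-(2 * (ρ + x))) + (ρ + 2 + g - g * x) / 2 +
  (3 * ρ - 2 - g + (2 * ρ - g) * x) / 2 * Real.exp (-(2 * x))

noncomputable def GV1 (x : ℝ) : ℝ := Real.exp (-x) * (2 * (ρ + x) - 2) - g / 2 +
  ((2 * ρ - g) / 2 - (3 * ρ - 2 - g + (2 * ρ - g) * x)) * Real.exp (-(2 * x))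

noncomputable def fV (x : ℝ) : ℝ := (4 - 2 * ρ - 2 * x) * Real.exp x + 2 * (ρ - 2) + 2 * (2 * ρ - g) * x

noncomputable def fV1 (x : ℝ) : ℝ := (2 - 2 * ρ - 2 * x) * Real.exp x + 2 * (2 * ρ - g)

theorem GV_VV (x : ℝ) : GV ρ g x = Real.exp (-x) * VV ρ g x := by
  unfold GV VV
  have h1 : Real.exp (-x) * Real.exp x = 1 := by rw [← Real.exp_add]; simp
  have h2 : Real.exp (-(2 * x)) = Real.exp (-x) * Real.exp (-x) := by
    rw [← Real.exp_add]; congr 1; ring
  rw [h2]
  linear_combination -((ρ + 2 + g - g * x) / 2) * h1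

theorem GV_deriv (x : ℝ) : HasDerivAt (GV ρ g) (GV1 ρ g x) x := by
  have h1 : HasDerivAt (fun x : ℝ => Real.exp (-x)) (Real.exp (-x) * -1) x :=
    (hasDerivAt_neg x).exp
  have h2 : HasDerivAt (fun x : ℝ => Real.exp (-(2 * x))) (Real.exp (-(2 * x)) * -2) x := by
    have : HasDerivAt (fun x : ℝ => -(2 * x)) (-2) x := by
      have := ((hasDerivAt_id x).const_mul 2).neg
      exact this.congr_deriv (by ring)
    exact this.exp
  have h3 : HasDerivAt (fun x : ℝ => -(2 * (ρ + x))) (-2) x := by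
    have := (((hasDerivAt_id x).const_add ρ).const_mul 2).neg
    exact this.congr_deriv (by ring)
  have h4 : HasDerivAt (fun x : ℝ => (ρ + 2 + g - g * x) / 2) (-g / 2) x := by
    have := (((hasDerivAt_id x).const_mul g).const_sub (ρ + 2 + g)).div_const 2
    exact this.congr_deriv (by ring)
  have h5 : HasDerivAt (fun x : ℝ => (3 * ρ - 2 - g + (2 * ρ - g) * x) / 2) ((2 * ρ - g) / 2) x := by
    have := (((hasDerivAt_id x).const_mul (2 * ρ - g)).const_add (3 * ρ - 2 - g)).div_const 2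
    exact this.congr_deriv (by ring)
  refine (((h1.mul h3).add h4).add (h5.mul h2)).congr_deriv ?_
  unfold GV1
  ring

theorem GV1_deriv (x : ℝ) : HasDerivAt (GV1 ρ g) (Real.exp (-(2 * x)) * fV ρ g x) x := by
  have h1 : HasDerivAt (fun x : ℝ => Real.exp (-x)) (Real.exp (-x) * -1) x :=
    (hasDerivAt_neg x).exp
  have h2 : HasDerivAt (fun x : ℝ => Real.exp (-(2 * x))) (Real.exp (-(2 * x)) * -2) x := by
    have : HasDerivAt (fun x : ℝ => -(2 * x)) (-2) x := by
      have := ((hasDerivAt_id x).const_mul 2).neg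
      exact this.congr_deriv (by ring)
    exact this.exp
  have h3 : HasDerivAt (fun x : ℝ => 2 * (ρ + x) - 2) 2 x := by
    have := (((hasDerivAt_id x).const_add ρ).const_mul 2).sub_const 2
    exact this.congr_deriv (by ring)
  have h5 : HasDerivAt (fun x : ℝ => (2 * ρ - g) / 2 - (3 * ρ - 2 - g + (2 * ρ - g) * x))
      (-(2 * ρ - g)) x := by
    have := (((hasDerivAt_id x).const_mul (2 * ρ - g)).const_add (3 * ρ - 2 - g)).const_sub
      ((2 * ρ - g) / 2)
    exact this.congr_deriv (by ring)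
  refine (((h1.mul h3).sub_const (g / 2)).add (h5.mul h2)).congr_deriv ?_
  unfold fV
  have e1 : Real.exp (-x) = Real.exp (-(2 * x)) * Real.exp x := by
    rw [← Real.exp_add]; congr 1; ring
  rw [e1]
  ring

theorem fV_deriv (x : ℝ) : HasDerivAt (fV ρ g) (fV1 ρ g x) x := by
  have h3 : HasDerivAt (fun x : ℝ => 4 - 2 * ρ - 2 * x) (-2) x := by
    have := ((hasDerivAt_id x).const_mul 2).const_sub (4 - 2 * ρ)
    exact this.congr_deriv (by ring)
  have h4 : HasDerivAt (fun x : ℝ => 2 * (2 * ρ - g) * x) (2 * (2 * ρ - g)) x := by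
    have := (hasDerivAt_id x).const_mul (2 * (2 * ρ - g))
    exact this.congr_deriv (by ring)
  refine (((h3.mul (Real.hasDerivAt_exp x)).add_const (2 * (ρ - 2))).add h4).congr_deriv ?_
  unfold fV1
  ring

theorem fV1_deriv (x : ℝ) : HasDerivAt (fV1 ρ g) (-(2 * (ρ + x)) * Real.exp x) x := by
  have h3 : HasDerivAt (fun x : ℝ => 2 - 2 * ρ - 2 * x) (-2) x := by
    have := ((hasDerivAt_id x).const_mul 2).const_sub (2 - 2 * ρ)
    exact this.congr_deriv (by ring)
  refine ((h3.mul (Real.hasDerivAt_exp x)).add_const (2 * (2 * ρ - g))).congr_deriv ?_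
  ring

theorem GV_zero : GV ρ g 0 = 0 := by unfold GV; simp; ring

theorem GV1_zero : GV1 ρ g 0 = 0 := by unfold GV1; simp; ring

theorem fV_zero : fV ρ g 0 = 0 := by unfold fV; simp; ring

theorem fV1_zero : fV1 ρ g 0 = 2 * (ρ + 1 - g) := by unfold fV1; simp; ring

theorem neg_of_mul_neg_left' {a b : ℝ} (h : a * b < 0) (ha : 0 < a) : b < 0 := by
  by_contra hcon
  push Not at hcon
  have := mul_nonneg ha.le hcon
  linarith

/-- mean value theorem in the form we need -/
theorem neg_of_deriv_neg {f f' : ℝ → ℝ} (hd : ∀ x, HasDerivAt f (f' x) x) (h0 : f 0 ≤ 0)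
    (h : ∀ x, 0 < x → f' x < 0) : ∀ x, 0 < x → f x < 0 := by
  intro x hx
  obtain ⟨c, hc, he⟩ := exists_hasDerivAt_eq_slope f f' hx
    (fun y _ => (hd y).continuousAt.continuousWithinAt) (fun y _ => hd y)
  have h1 := h c hc.1
  rw [he, sub_zero, div_lt_iff₀ hx] at h1
  linarith

variable {ρ g}

theorem VV_neg (hρ : 0 < ρ) (hb : ρ + 1 - g ≤ 0) {x : ℝ} (hx : 0 < x) : VV ρ g x < 0 := by
  have s1 : ∀ y, 0 < y → fV1 ρ g y < 0 := by
    apply neg_of_deriv_neg (fun y => fV1_deriv ρ g y)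
    · rw [fV1_zero]; linarith
    · intro y hy
      have : 0 < 2 * (ρ + y) * Real.exp y := by positivity
      linarith
  have s2 : ∀ y, 0 < y → fV ρ g y < 0 :=
    neg_of_deriv_neg (fun y => fV_deriv ρ g y) (fV_zero ρ g).le s1
  have s3 : ∀ y, 0 < y → GV1 ρ g y < 0 :=
    neg_of_deriv_neg (fun y => GV1_deriv ρ g y) (GV1_zero ρ g).le
      (fun y hy => mul_neg_of_pos_of_neg (Real.exp_pos _) (s2 y hy))
  have s4 := neg_of_deriv_neg (fun y => GV_deriv ρ g y) (GV_zero ρ g).le s3 x hx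
  rw [GV_VV] at s4
  exact neg_of_mul_neg_left' s4 (Real.exp_pos _)

theorem fV_concave (hρ : 0 < ρ) : ConcaveOn ℝ (Ici 0) (fV ρ g) := by
  apply concaveOn_of_hasDerivWithinAt2_nonpos (convex_Ici _)
    (f' := fV1 ρ g) (f'' := fun x => -(2 * (ρ + x)) * Real.exp x)
  · exact fun x _ => (fV_deriv ρ g x).continuousAt.continuousWithinAt
  · exact fun x _ => (fV_deriv ρ g x).hasDerivWithinAt
  · exact fun x _ => (fV1_deriv ρ g x).hasDerivWithinAt
  · intro x hx
    rw [interior_Ici] at hx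
    have hx' : 0 < x := hx
    have : 0 < 2 * (ρ + x) * Real.exp x := by positivity
    linarith

/-- sign pattern: a function vanishing at both ends with vanishing (or nonnegative) initial slope,
which is negative somewhere, has a second derivative negative and later positive -/
theorem pattern {G G' G'' : ℝ → ℝ} {L : ℝ} (hd : ∀ x, HasDerivAt G (G' x) x)
    (hd' : ∀ x, HasDerivAt G' (G'' x) x) (h0 : G 0 = 0) (h0' : 0 ≤ G' 0) (hL : 0 ≤ G L)
    {x : ℝ} (hx0 : 0 < x) (hxL : x < L) (hx : G x < 0) :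
    ∃ a b, 0 < a ∧ a < b ∧ G'' a < 0 ∧ 0 < G'' b := by
  obtain ⟨c1, hc1, he1⟩ := exists_hasDerivAt_eq_slope G G' hx0
    (fun y _ => (hd y).continuousAt.continuousWithinAt) (fun y _ => hd y)
  have h1 : G' c1 < 0 := by
    rw [he1]; exact div_neg_of_neg_of_pos (by linarith) (by linarith)
  obtain ⟨c2, hc2, he2⟩ := exists_hasDerivAt_eq_slope G G' hxL
    (fun y _ => (hd y).continuousAt.continuousWithinAt) (fun y _ => hd y)
  have h2 : 0 < G' c2 := by
    rw [he2]; exact div_pos (by linarith) (by linarith)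
  obtain ⟨a, ha, hea⟩ := exists_hasDerivAt_eq_slope G' G'' hc1.1
    (fun y _ => (hd' y).continuousAt.continuousWithinAt) (fun y _ => hd' y)
  have h3 : G'' a < 0 := by
    rw [hea]; exact div_neg_of_neg_of_pos (by linarith) (by linarith [hc1.1])
  have hc12 : c1 < c2 := hc1.2.trans hc2.1
  obtain ⟨b, hb, heb⟩ := exists_hasDerivAt_eq_slope G' G'' hc12
    (fun y _ => (hd' y).continuousAt.continuousWithinAt) (fun y _ => hd' y)
  have h4 : 0 < G'' b := by
    rw [heb]; exact div_pos (by linarith) (by linarith)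
  exact ⟨a, b, ha.1, ha.2.trans hb.1, h3, h4⟩

theorem VV_nonneg (hρ : 0 < ρ) {L : ℝ} (hL : 0 ≤ VV ρ g L) {x : ℝ} (hx0 : 0 ≤ x) (hxL : x ≤ L) :
    0 ≤ VV ρ g x := by
  have hGL : 0 ≤ GV ρ g L := by rw [GV_VV]; exact mul_nonneg (Real.exp_pos _).le hL
  rcases hx0.eq_or_lt with h | hx0
  · rw [← h]
    have := GV_zero ρ g
    rw [GV_VV] at this
    simp at this
    exact this.ge
  rcases hxL.eq_or_lt with h | hxL
  · rw [h]; exact hL
  by_contra hcon
  push Not at hcon
  have hG : GV ρ g x < 0 := by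
    rw [GV_VV]; exact mul_neg_of_pos_of_neg (Real.exp_pos _) hcon
  obtain ⟨a, b, ha, hab, h1, h2⟩ := pattern (fun y => GV_deriv ρ g y) (fun y => GV1_deriv ρ g y)
    (GV_zero ρ g) (GV1_zero ρ g).ge hGL hx0 hxL hG
  have h1' : fV ρ g a < 0 := neg_of_mul_neg_left' h1 (Real.exp_pos _)
  have h2' : 0 < fV ρ g b := (mul_pos_iff_of_pos_left (Real.exp_pos _)).1 h2
  have hb : 0 < b := ha.trans hab
  have hc := (fV_concave (g := g) hρ).2 (show (0:ℝ) ∈ Ici (0:ℝ) from self_mem_Ici) (show b ∈ Ici 0 from hb.le)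
    (show (0:ℝ) ≤ 1 - a / b by rw [sub_nonneg, div_le_one hb]; exact hab.le)
    (show (0:ℝ) ≤ a / b by positivity) (by ring)
  simp only [smul_eq_mul, mul_zero, zero_add, fV_zero] at hc
  rw [div_mul_cancel₀ _ hb.ne'] at hc
  have : 0 < a / b * fV ρ g b := by positivity
  linarith

end V

end Pool.Agent.R755.Mx
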