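import Pool.Agent.R755.Mx.Law
import Pool.Agent.Helper88.SE.P_zlaw
import Pool.Agent.Helper88.SE.P_sg_open

/-!
# Potentials of spheres and balls in dimension three
-/

set_option autoImplicit false

namespace Pool.Agent.R755.Mx

open MeasureTheory ProbabilityTheory Set Filter Topology Metric
open scoped ENNReal

/-- the unit sphere of `ℝ³` -/
abbrev S2 := Metric.sphere (0 : EE 3) 1

/-- the uniform probability measure on the unit sphere -/
noncomputable def sg3 : Measure S2 :=
  ((volume : Measure (EE 3)).toSphere Set.univ)⁻¹ • (volume : Measure (EE 3)).toSphere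

instance sg3_prob : IsProbabilityMeasure sg3 := Pool.Agent.Helper88.SE.sg_prob 2

instance sg3_open : sg3.IsOpenPosMeasure := Pool.Agent.Helper88.SE.sg_open 2

theorem zlaw3 (p : S2) (h : ℝ → ℝ≥0∞) (hh : Measurable h) :
    ∫⁻ x : S2, h (inner ℝ (p : EE 3) (x : EE 3)) ∂sg3 =
      ENNReal.ofReal (1 / 2) * ∫⁻ z in Icc (-1 : ℝ) 1, h z :=
  Pool.Agent.Helper88.SE.zlaw p h hh

theorem sphere_mass : (volume : Measure (EE 3)).toSphere Set.univ = ENNReal.ofReal (4 * Real.pi) := by
  obtain ⟨p⟩ : Nonempty S2 := ⟨⟨EuclideanSpace.single 0 1, by simp⟩⟩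
  have h1 := Pool.Agent.Helper88.SE.zl_main p (fun _ => 1) measurable_const
  simp only [lintegral_one] at h1
  rw [Measure.restrict_apply_univ, Real.volume_Icc, ← ENNReal.ofReal_mul (by positivity)] at h1
  have : 2 * Real.pi * (1 - -1) = 4 * Real.pi := by ring
  rw [this] at h1
  exact h1

theorem toSphere_eq : (volume : Measure (EE 3)).toSphere = ENNReal.ofReal (4 * Real.pi) • sg3 := by
  unfold sg3
  rw [sphere_mass, smul_smul, ENNReal.mul_inv_cancel, one_smul]
  · rw [ne_eq, ENNReal.ofReal_eq_zero, not_le]; positivity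
  · exact ENNReal.ofReal_ne_top

/-- the uniform probability measure on the sphere of radius `s` centred at the origin -/
noncomputable def sph (s : ℝ) : Measure (EE 3) := sg3.map (fun θ : S2 => s • (θ : EE 3))

theorem sph_meas (s : ℝ) : Measurable (fun θ : S2 => s • (θ : EE 3)) := by fun_prop

instance sph_prob (s : ℝ) : IsProbabilityMeasure (sph s) :=
  Measure.isProbabilityMeasure_map (sph_meas s).aemeasurable

/-- polar coordinates -/
theorem polar (f : EE 3 → ℝ≥0∞) (hf : Measurable f) :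
    ∫⁻ y, f y = ∫⁻ s in Ioi (0:ℝ), ENNReal.ofReal (4 * Real.pi * s ^ 2) * ∫⁻ y, f y ∂(sph s) := by
  have hfin : Module.finrank ℝ (EE 3) = 3 := by simp
  have hmp := (volume : Measure (EE 3)).measurePreserving_homeomorphUnitSphereProd
  rw [hfin] at hmp
  have h0 : ∫⁻ v : EE 3, f v = ∫⁻ v in ({0}ᶜ : Set (EE 3)), f v := by
    rw [restrict_compl_singleton]
  rw [h0, ← lintegral_subtype_comap (measurableSet_singleton (0 : EE 3)).compl f]
  have hG : Measurable (fun q : S2 × Ioi (0 : ℝ) => f ((q.2 : ℝ) • (q.1 : EE 3))) :=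
    hf.comp (by fun_prop)
  have h1 := hmp.lintegral_comp hG
  have h2 : (fun v : ({0}ᶜ : Set (EE 3)) => f (v : EE 3))
      = fun v => f (((homeomorphUnitSphereProd (EE 3) v).2 : ℝ) •
        ((homeomorphUnitSphereProd (EE 3) v).1 : EE 3)) := by
    funext v
    rw [homeomorphUnitSphereProd_apply_fst_coe, homeomorphUnitSphereProd_apply_snd_coe, smul_smul,
      mul_inv_cancel₀ (norm_ne_zero_iff.2 v.2), one_smul]
  rw [h2, h1, lintegral_prod_symm' _ hG]
  unfold Measure.volumeIoiPow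
  rw [lintegral_withDensity_eq_lintegral_mul _ (by fun_prop)
    (Measurable.lintegral_prod_left' hG)]
  rw [← lintegral_subtype_comap measurableSet_Ioi
    (fun s => ENNReal.ofReal (4 * Real.pi * s ^ 2) * ∫⁻ y, f y ∂(sph s))]
  apply lintegral_congr
  intro s
  simp only [Pi.mul_apply]
  unfold sph
  rw [lintegral_map hf (sph_meas s), toSphere_eq, lintegral_smul_measure, smul_eq_mul, ← mul_assoc,
    ← ENNReal.ofReal_mul (pow_nonneg (le_of_lt s.2) _)]
  congr 2
  norm_num
  ring

/-- `(1+|x|) exp(-|x|)` -/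
noncomputable def mm (x : ℝ) : ℝ := (1 + |x|) * Real.exp (-|x|)

theorem mm_nonneg (x : ℝ) : 0 ≤ mm x := by unfold mm; positivity

theorem mm_cont : Continuous mm := by unfold mm; fun_prop

theorem avg {r s : ℝ} (hr : 0 < r) (hs : 0 < s) :
    ∫ z in (-1:ℝ)..1, Real.exp (-Real.sqrt (r ^ 2 + s ^ 2 - 2 * r * s * z)) =
      (mm (r - s) - mm (r + s)) / (r * s) := by
  have hrs : 0 < r * s := mul_pos hr hs
  set v : ℝ → ℝ := fun z => Real.sqrt (r ^ 2 + s ^ 2 - 2 * r * s * z) with hv
  have hvc : Continuous v := by rw [hv]; fun_prop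
  have hderiv : ∀ z ∈ Ioo (-1:ℝ) 1, HasDerivAt (fun z => (1 + v z) * Real.exp (-v z) / (r * s))
      (Real.exp (-v z)) z := by
    intro z hz
    have hpos : 0 < r ^ 2 + s ^ 2 - 2 * r * s * z := by
      nlinarith [sq_nonneg (r - s), mul_lt_mul_of_pos_left hz.2 hrs]
    have h1 : HasDerivAt (fun z : ℝ => r ^ 2 + s ^ 2 - 2 * r * s * z) (-(2 * r * s)) z := by
      have := ((hasDerivAt_id z).const_mul (2 * r * s)).const_sub (r ^ 2 + s ^ 2)
      exact this.congr_deriv (by ring)
    have h2 : HasDerivAt v (-(2 * r * s) / (2 * Real.sqrt (r ^ 2 + s ^ 2 - 2 * r * s * z))) z :=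
      h1.sqrt hpos.ne'
    have hvz : 0 < v z := Real.sqrt_pos.2 hpos
    have h3 : HasDerivAt v (-(r * s) / v z) z := by
      refine h2.congr_deriv ?_
      show _ = -(r * s) / Real.sqrt (r ^ 2 + s ^ 2 - 2 * r * s * z)
      have : 0 < Real.sqrt (r ^ 2 + s ^ 2 - 2 * r * s * z) := hvz
      field_simp
    have h4 := ((h3.const_add 1).mul (h3.neg.exp)).div_const (r * s)
    refine h4.congr_deriv ?_
    simp only [Pi.neg_apply]
    field_simp
    ring
  have hcont : ContinuousOn (fun z => (1 + v z) * Real.exp (-v z) / (r * s)) (Icc (-1) 1) := by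
    apply Continuous.continuousOn
    fun_prop
  rw [intervalIntegral.integral_eq_sub_of_hasDerivAt_of_le (by norm_num) hcont hderiv
    ((Continuous.intervalIntegrable (by fun_prop) _ _))]
  have e1 : v 1 = |r - s| := by
    show Real.sqrt (r ^ 2 + s ^ 2 - 2 * r * s * 1) = _
    rw [← Real.sqrt_sq_eq_abs]; congr 1; ring
  have e2 : v (-1) = |r + s| := by
    show Real.sqrt (r ^ 2 + s ^ 2 - 2 * r * s * (-1)) = _
    rw [← Real.sqrt_sq_eq_abs]; congr 1; ring
  rw [e1, e2]
  unfold mm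
  ring

/-- the potential of the uniform measure on a sphere -/
theorem pot_sph_l {x : EE 3} (hx : x ≠ 0) {s : ℝ} (hs : 0 < s) :
    ∫⁻ y, ENNReal.ofReal (Real.exp (-‖x - y‖)) ∂(sph s) =
      ENNReal.ofReal ((mm (‖x‖ - s) - mm (‖x‖ + s)) / (2 * ‖x‖ * s)) := by
  set r := ‖x‖ with hr
  have hr0 : 0 < r := norm_pos_iff.2 hx
  unfold sph
  rw [lintegral_map (by fun_prop) (sph_meas s)]
  have hp : r⁻¹ • x ∈ Metric.sphere (0 : EE 3) 1 := by
    rw [mem_sphere_zero_iff_norm, norm_smul, norm_inv, Real.norm_eq_abs, abs_of_pos hr0, ← hr]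
    exact inv_mul_cancel₀ hr0.ne'
  set p : S2 := ⟨r⁻¹ • x, hp⟩ with hpdef
  set h : ℝ → ℝ≥0∞ := fun z => ENNReal.ofReal
    (Real.exp (-Real.sqrt (r ^ 2 + s ^ 2 - 2 * r * s * z))) with hh
  have hhm : Measurable h := by rw [hh]; fun_prop
  have e1 : ∀ θ : S2, ENNReal.ofReal (Real.exp (-‖x - s • (θ : EE 3)‖)) =
      h (inner ℝ (p : EE 3) (θ : EE 3)) := by
    intro θ
    simp only [hh]
    congr 3
    have hθ : ‖(θ : EE 3)‖ = 1 := by simp
    have hin : inner ℝ x (θ : EE 3) = r * inner ℝ (p : EE 3) (θ : EE 3) := by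
      show _ = r * inner ℝ (r⁻¹ • x) (θ : EE 3)
      rw [real_inner_smul_left, ← mul_assoc, mul_inv_cancel₀ hr0.ne', one_mul]
    have e2 : ‖x - s • (θ : EE 3)‖ ^ 2 = r ^ 2 + s ^ 2 - 2 * r * s * inner ℝ (p : EE 3) (θ : EE 3) := by
      rw [norm_sub_sq_real, real_inner_smul_right, hin, norm_smul, hθ, Real.norm_eq_abs,
        abs_of_pos hs, ← hr]
      ring
    rw [← e2, Real.sqrt_sq (norm_nonneg _)]
  simp_rw [e1]
  rw [zlaw3 p h hhm]
  have hcont : Continuous (fun z : ℝ => Real.exp (-Real.sqrt (r ^ 2 + s ^ 2 - 2 * r * s * z))) := by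
    fun_prop
  have e3 : ∫⁻ z in Icc (-1:ℝ) 1, h z = ENNReal.ofReal
      (∫ z in (-1:ℝ)..1, Real.exp (-Real.sqrt (r ^ 2 + s ^ 2 - 2 * r * s * z))) := by
    rw [intervalIntegral.integral_of_le (by norm_num), ← integral_Icc_eq_integral_Ioc]
    exact (ofReal_integral_eq_lintegral_ofReal hcont.integrableOn_Icc
      (Eventually.of_forall fun z => (Real.exp_pos _).le)).symm
  rw [e3, avg hr0 hs, ← ENNReal.ofReal_mul (by norm_num)]
  congr 1
  ring

theorem kk_nonneg {r s : ℝ} (hr : 0 < r) (hs : 0 < s) : 0 ≤ (mm (r - s) - mm (r + s)) / (2 * r * s) := by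
  have h := avg hr hs
  have h2 : 0 ≤ ∫ z in (-1:ℝ)..1, Real.exp (-Real.sqrt (r ^ 2 + s ^ 2 - 2 * r * s * z)) :=
    intervalIntegral.integral_nonneg (by norm_num) (fun z _ => (Real.exp_pos _).le)
  rw [h] at h2
  have : (mm (r - s) - mm (r + s)) / (2 * r * s) = (mm (r - s) - mm (r + s)) / (r * s) / 2 := by
    field_simp
  rw [this]; linarith

theorem pot_sph {x : EE 3} (hx : x ≠ 0) {s : ℝ} (hs : 0 < s) :
    ∫ y, Real.exp (-‖x - y‖) ∂(sph s) = (mm (‖x‖ - s) - mm (‖x‖ + s)) / (2 * ‖x‖ * s) := by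
  rw [integral_eq_lintegral_of_nonneg_ae (Eventually.of_forall fun y => (Real.exp_pos _).le)
    (by fun_prop), pot_sph_l hx hs, ENNReal.toReal_ofReal (kk_nonneg (norm_pos_iff.2 hx) hs)]

/-- the integral in the potential of a ball -/
noncomputable def JJ (r ρ : ℝ) : ℝ := ∫ s in (0:ℝ)..ρ, s * (mm (r - s) - mm (r + s))

theorem pot_ball {x : EE 3} (hx : x ≠ 0) {ρ : ℝ} (hρ : 0 < ρ) :
    ∫ y in closedBall (0 : EE 3) ρ, Real.exp (-‖x - y‖) = 2 * Real.pi / ‖x‖ * JJ ‖x‖ ρ := by
  set r := ‖x‖ with hr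
  have hr0 : 0 < r := norm_pos_iff.2 hx
  rw [integral_eq_lintegral_of_nonneg_ae (Eventually.of_forall fun y => (Real.exp_pos _).le)
    (by fun_prop)]
  rw [← lintegral_indicator measurableSet_closedBall]
  have hfm : Measurable ((closedBall (0 : EE 3) ρ).indicator
      fun y => ENNReal.ofReal (Real.exp (-‖x - y‖))) :=
    Measurable.indicator (by fun_prop) measurableSet_closedBall
  rw [polar _ hfm]
  have e1 : ∀ s ∈ Ioi (0:ℝ), ENNReal.ofReal (4 * Real.pi * s ^ 2) * ∫⁻ y,
      (closedBall (0 : EE 3) ρ).indicator (fun y => ENNReal.ofReal (Real.exp (-‖x - y‖))) y ∂(sph s) =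
      (Ioc 0 ρ).indicator (fun s => ENNReal.ofReal (2 * Real.pi / r *
        (s * (mm (r - s) - mm (r + s))))) s := by
    intro s hs
    have hs0 : (0:ℝ) < s := hs
    have e2 : ∫⁻ y, (closedBall (0 : EE 3) ρ).indicator
        (fun y => ENNReal.ofReal (Real.exp (-‖x - y‖))) y ∂(sph s) =
        if s ≤ ρ then ∫⁻ y, ENNReal.ofReal (Real.exp (-‖x - y‖)) ∂(sph s) else 0 := by
      unfold sph
      rw [lintegral_map hfm (sph_meas s), lintegral_map (by fun_prop) (sph_meas s)]
      have hn : ∀ θ : S2, s • (θ : EE 3) ∈ closedBall (0 : EE 3) ρ ↔ s ≤ ρ := by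
        intro θ
        have hθ : ‖(θ : EE 3)‖ = 1 := by simp
        rw [mem_closedBall_zero_iff, norm_smul, hθ, Real.norm_eq_abs, abs_of_pos hs0, mul_one]
      split_ifs with h
      · apply lintegral_congr
        intro θ
        rw [indicator_of_mem ((hn θ).2 h)]
      · have : ∀ θ : S2, (closedBall (0 : EE 3) ρ).indicator
            (fun y => ENNReal.ofReal (Real.exp (-‖x - y‖))) (s • (θ : EE 3)) = 0 := by
          intro θ
          rw [indicator_of_notMem (fun h' => h ((hn θ).1 h'))]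
        simp_rw [this]
        simp
    rw [e2]
    by_cases h : s ≤ ρ
    · rw [if_pos h, indicator_of_mem (show s ∈ Ioc 0 ρ from ⟨hs0, h⟩), pot_sph_l hx hs0,
        ← ENNReal.ofReal_mul (by positivity)]
      congr 1
      rw [← hr]
      field_simp
      ring
    · rw [if_neg h, indicator_of_notMem (show s ∉ Ioc 0 ρ from fun h' => h h'.2), mul_zero]
  rw [setLIntegral_congr_fun measurableSet_Ioi e1]
  rw [lintegral_indicator measurableSet_Ioc, Measure.restrict_restrict measurableSet_Ioc,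
    inter_eq_self_of_subset_left (show Ioc 0 ρ ⊆ Ioi 0 from fun s hs => hs.1)]
  have hcont : Continuous (fun s : ℝ => 2 * Real.pi / r * (s * (mm (r - s) - mm (r + s)))) := by
    have := mm_cont
    fun_prop
  rw [← ofReal_integral_eq_lintegral_ofReal (hcont.integrableOn_Ioc) (by
    filter_upwards [ae_restrict_mem measurableSet_Ioc] with s hs
    have h1 := kk_nonneg hr0 hs.1
    have hs0 := hs.1
    have h2 : 0 ≤ mm (r - s) - mm (r + s) := by
      by_contra hcon
      push Not at hcon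
      have := div_neg_of_neg_of_pos hcon (show 0 < 2 * r * s by positivity)
      linarith
    show 0 ≤ 2 * Real.pi / r * (s * (mm (r - s) - mm (r + s)))
    positivity)]
  rw [ENNReal.toReal_ofReal, ← intervalIntegral.integral_of_le hρ.le,
    intervalIntegral.integral_const_mul]
  · rfl
  · apply setIntegral_nonneg measurableSet_Ioc
    intro s hs
    have h1 := kk_nonneg hr0 hs.1
    have hs0 := hs.1
    have h2 : 0 ≤ mm (r - s) - mm (r + s) := by
      by_contra hcon
      push Not at hcon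
      have := div_neg_of_neg_of_pos hcon (show 0 < 2 * r * s by positivity)
      linarith
    positivity

end Pool.Agent.R755.Mx
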