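import Pool.Agent.R755.Mx.Fin

/-!
# Supports, and the final form of the optimality statement
-/

set_option autoImplicit false

namespace Pool.Agent.R755.Mx

open MeasureTheory ProbabilityTheory Set Filter Topology Metric
open scoped ENNReal

theorem supp_smul {c : ℝ≥0∞} (h0 : c ≠ 0) (μ : Measure (EE 3)) : (c • μ).support = μ.support := by
  ext x
  rw [Measure.mem_support_iff_forall, Measure.mem_support_iff_forall]
  constructor
  · intro h U hU
    have := h U hU
    rw [Measure.smul_apply, smul_eq_mul] at this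
    exact pos_iff_ne_zero.2 (fun h' => by rw [h', mul_zero] at this; exact lt_irrefl _ this)
  · intro h U hU
    rw [Measure.smul_apply, smul_eq_mul]
    exact pos_iff_ne_zero.2 (mul_ne_zero h0 (h U hU).ne')

theorem supp_ball {ρ : ℝ} (hρ : 0 < ρ) :
    (volume.restrict (closedBall (0 : EE 3) ρ)).support = closedBall (0 : EE 3) ρ := by
  apply subset_antisymm
  · refine (Measure.support_restrict_subset).trans ?_
    rw [isClosed_closedBall.closure_eq]
    exact inter_subset_left
  · have h1 : interior (closedBall (0 : EE 3) ρ) ∩ (volume : Measure (EE 3)).support ⊆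
        (volume.restrict (closedBall (0 : EE 3) ρ)).support := Measure.interior_inter_support
    rw [Measure.support_eq_univ, inter_univ, interior_closedBall _ hρ.ne'] at h1
    have h2 := closure_mono h1
    rwa [closure_ball _ hρ.ne', Measure.isClosed_support.closure_eq] at h2

theorem supp_sph {s : ℝ} (hs : 0 < s) : (sph s).support = sphere (0 : EE 3) s := by
  apply subset_antisymm
  · apply Measure.support_subset_of_isClosed isClosed_sphere
    filter_upwards [sph_norm hs] with x hx
    simpa using hx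
  · intro x hx
    rw [Measure.mem_support_iff_forall]
    intro U hU
    have hxn : ‖x‖ = s := by simpa using hx
    unfold sph
    have hUi : x ∈ interior U := mem_interior_iff_mem_nhds.2 hU
    refine lt_of_lt_of_le ?_ (measure_mono interior_subset)
    rw [Measure.map_apply (sph_meas s) isOpen_interior.measurableSet]
    have hc : Continuous (fun θ : S2 => s • (θ : EE 3)) := by fun_prop
    apply IsOpen.measure_pos _ (isOpen_interior.preimage hc)
    refine ⟨⟨s⁻¹ • x, ?_⟩, ?_⟩
    · rw [mem_sphere_zero_iff_norm, norm_smul, norm_inv, Real.norm_eq_abs, abs_of_pos hs, hxn]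
      exact inv_mul_cancel₀ hs.ne'
    · show s • (s⁻¹ • x) ∈ interior U
      rw [smul_smul, mul_inv_cancel₀ hs.ne', one_smul]
      exact hUi

theorem supp_mu {R ρ : ℝ} (h0 : 0 < ρ) (h1 : ρ < R) (hT : TT R ρ = 0) :
    (mu R ρ).support = closedBall (0 : EE 3) ρ ∪ sphere (0 : EE 3) R := by
  have hb := bet_pos h0 h1 hT
  have hg := gamm_pos h0 h1
  have hR : 0 < R := h0.trans h1
  unfold mu
  rw [supp_smul (ENNReal.inv_ne_zero.2 ENNReal.ofReal_ne_top)]
  unfold ww
  rw [Measure.support_add, Measure.support_add, supp_smul, supp_smul, supp_smul, supp_ball h0,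
    supp_sph h0, supp_sph hR, union_eq_self_of_subset_right sphere_subset_closedBall]
  · rw [ne_eq, ENNReal.ofReal_eq_zero, not_le]; exact hg
  · rw [ne_eq, ENNReal.ofReal_eq_zero, not_le]; exact hb
  · rw [ne_eq, ENNReal.ofReal_eq_zero, not_le]; positivity

/-- a ball together with a sphere is not a finite union of spheres centred at the origin -/
theorem not_spheres {ρ : ℝ} (h0 : 0 < ρ) (R : ℝ) (F : Set ℝ) (hF : F.Finite) :
    closedBall (0 : EE 3) ρ ∪ sphere (0 : EE 3) R ≠ ⋃ r ∈ F, sphere (0 : EE 3) r := by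
  intro h
  have h1 : Icc 0 ρ ⊆ F := by
    intro t ht
    set v : EE 3 := EuclideanSpace.single 0 t with hv
    have hvn : ‖v‖ = t := by rw [hv]; simp [abs_of_nonneg ht.1]
    have h2 : v ∈ closedBall (0 : EE 3) ρ ∪ sphere (0 : EE 3) R := by
      left; rw [mem_closedBall_zero_iff, hvn]; exact ht.2
    rw [h] at h2
    simp only [mem_iUnion, mem_sphere_zero_iff_norm] at h2
    obtain ⟨r, hr, he⟩ := h2
    rw [← hvn, he]; exact hr
  exact (Icc_infinite h0) (hF.subset h1)

/-- optimality on the ball of radius `R` -/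
theorem opt_ball {R : ℝ} (μ₀ : Measure (EE 3)) [IsProbabilityMeasure μ₀] (c : ℝ)
    (h1 : ∀ x : EE 3, ‖x‖ ≤ R → c ≤ pot μ₀ x) (h2 : ∀ᵐ x ∂μ₀, pot μ₀ x = c)
    (h3 : μ₀ (closedBall (0 : EE 3) R)ᶜ = 0) (μ : Measure (EE 3)) :
    (IsProbabilityMeasure μ ∧ μ (closedBall (0 : EE 3) R)ᶜ = 0 ∧
      ∀ ν : Measure (EE 3), IsProbabilityMeasure ν → ν (closedBall (0 : EE 3) R)ᶜ = 0 →
        En μ μ ≤ En ν ν) ↔ μ = μ₀ := by
  have key := fun (ν : Measure (EE 3)) (h : IsProbabilityMeasure ν) (h' : ν (closedBall (0 : EE 3) R)ᶜ = 0) =>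
    optimal (closedBall (0 : EE 3) R) μ₀ c (fun x hx => h1 x (by simpa using hx)) h2 ν h'
  constructor
  · rintro ⟨hp, h4, h5⟩
    exact (key μ hp h4).2 (h5 μ₀ inferInstance h3)
  · rintro rfl
    exact ⟨inferInstance, h3, fun ν hν h4 => (key ν hν h4).1⟩

theorem En_const (μ₀ : Measure (EE 3)) [IsProbabilityMeasure μ₀] (c : ℝ)
    (h2 : ∀ᵐ x ∂μ₀, pot μ₀ x = c) : En μ₀ μ₀ = c := by
  rw [En_pot, integral_congr_ae h2]
  simp

end Pool.Agent.R755.Mx
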