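import Pool.Agent.R755.Mx.One

/-!
# One variable inequalities, second part
-/

set_option autoImplicit false

namespace Pool.Agent.R755.Mx

open MeasureTheory Set Filter Topology

/-- the function deciding between the two regimes -/
noncomputable def SS (R : ℝ) : ℝ := Real.sinh R - R * Real.exp (-R) - R ^ 2

/-- the equation for the inner radius -/
noncomputable def TT (R ρ : ℝ) : ℝ := (ρ * (1 + (R - ρ)) - 2) * Real.exp (-(R - ρ)) +
  (ρ + 2) * Real.sinh (R - ρ) / (R - ρ) - 2 * R

theorem TT_eq {R ρ : ℝ} (h : ρ < R) : TT R ρ = VV ρ ((ρ + 2) / (R - ρ)) (R - ρ) := by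
  have hD : R - ρ ≠ 0 := (sub_pos.2 h).ne'
  unfold TT VV
  rw [Real.sinh_eq]
  field_simp
  ring

theorem TT_zero {R : ℝ} (h : 0 < R) : TT R 0 = 2 / R * SS R := by
  unfold TT SS
  simp only [sub_zero, zero_mul, zero_sub, zero_add]
  field_simp
  ring

theorem exists_rho {R : ℝ} (h : 0 < R) (hS : 0 < SS R) : ∃ ρ, 0 < ρ ∧ ρ < R ∧ TT R ρ = 0 := by
  set D := min 1 (R / 2) with hD
  have hD0 : 0 < D := lt_min one_pos (by positivity)
  have hD1 : D ≤ 1 := min_le_left _ _
  have hD2 : D ≤ R / 2 := min_le_right _ _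
  have h1 : TT R (R - D) < 0 := by
    rw [TT_eq (by linarith)]
    apply VV_neg (by linarith)
    · rw [sub_sub_cancel]
      have : R - D + 2 ≤ (R - D + 2) / D := by
        rw [le_div_iff₀ hD0]
        have : 0 ≤ R - D + 2 := by linarith
        nlinarith
      linarith
    · rw [sub_sub_cancel]; exact hD0
  have h2 : 0 < TT R 0 := by rw [TT_zero h]; positivity
  have hc : ContinuousOn (TT R) (Icc 0 (R - D)) := by
    unfold TT
    have hs := Real.continuous_sinh
    apply ContinuousOn.sub _ continuousOn_const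
    apply ContinuousOn.add
    · exact Continuous.continuousOn (by fun_prop)
    · apply ContinuousOn.div
      · exact Continuous.continuousOn (by fun_prop)
      · exact Continuous.continuousOn (by fun_prop)
      · intro x hx
        have := hx.2
        have : 0 < R - x := by linarith
        exact this.ne'
  obtain ⟨ρ, hρ, he⟩ := intermediate_value_Icc' (show (0:ℝ) ≤ R - D by linarith) hc
    (show (0:ℝ) ∈ Icc (TT R (R - D)) (TT R 0) from ⟨h1.le, h2.le⟩)
  refine ⟨ρ, ?_, by linarith [hρ.2], he⟩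
  rcases hρ.1.eq_or_lt with h0 | h0
  · rw [← h0] at he; linarith
  · exact h0

/-! ### the regime of a single sphere -/

noncomputable def FF (R κ r : ℝ) : ℝ := (1 + R - r) * Real.exp (r - R) -
  (1 + R + r) * Real.exp (-(r + R)) - κ * r

noncomputable def FF1 (R κ r : ℝ) : ℝ := (R - r) * Real.exp (r - R) +
  (R + r) * Real.exp (-(r + R)) - κ

noncomputable def FF2 (R r : ℝ) : ℝ := (R - r - 1) * Real.exp (r - R) -
  (R + r - 1) * Real.exp (-(r + R))

theorem FF_deriv (R κ r : ℝ) : HasDerivAt (FF R κ) (FF1 R κ r) r := by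
  have h1 : HasDerivAt (fun r : ℝ => Real.exp (r - R)) (Real.exp (r - R) * 1) r :=
    ((hasDerivAt_id r).sub_const R).exp
  have h2 : HasDerivAt (fun r : ℝ => Real.exp (-(r + R))) (Real.exp (-(r + R)) * -1) r :=
    (((hasDerivAt_id r).add_const R).neg).exp
  have h3 : HasDerivAt (fun r : ℝ => 1 + R - r) (-1) r := (hasDerivAt_id r).const_sub _
  have h4 : HasDerivAt (fun r : ℝ => 1 + R + r) 1 r := (hasDerivAt_id r).const_add _
  have h5 : HasDerivAt (fun r : ℝ => κ * r) κ r := by
    have := (hasDerivAt_id r).const_mul κ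
    exact this.congr_deriv (by ring)
  refine (((h3.mul h1).sub (h4.mul h2)).sub h5).congr_deriv ?_
  unfold FF1
  ring

theorem FF1_deriv (R κ r : ℝ) : HasDerivAt (FF1 R κ) (FF2 R r) r := by
  have h1 : HasDerivAt (fun r : ℝ => Real.exp (r - R)) (Real.exp (r - R) * 1) r :=
    ((hasDerivAt_id r).sub_const R).exp
  have h2 : HasDerivAt (fun r : ℝ => Real.exp (-(r + R))) (Real.exp (-(r + R)) * -1) r :=
    (((hasDerivAt_id r).add_const R).neg).exp
  have h3 : HasDerivAt (fun r : ℝ => R - r) (-1) r := (hasDerivAt_id r).const_sub _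
  have h4 : HasDerivAt (fun r : ℝ => R + r) 1 r := (hasDerivAt_id r).const_add _
  refine (((h3.mul h1).add (h4.mul h2)).sub_const κ).congr_deriv ?_
  unfold FF2
  ring

theorem FF2_eq (R r : ℝ) : FF2 R r = 2 * Real.exp (-R) *
    ((R - 1) * Real.sinh r - r * Real.cosh r) := by
  unfold FF2
  rw [Real.sinh_eq, Real.cosh_eq]
  have h1 : Real.exp (r - R) = Real.exp (-R) * Real.exp r := by
    rw [← Real.exp_add]; congr 1; ring
  have h2 : Real.exp (-(r + R)) = Real.exp (-R) * Real.exp (-r) := by
    rw [← Real.exp_add]; congr 1; ring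
  rw [h1, h2]
  ring

theorem coth_mono : MonotoneOn (fun x : ℝ => x * Real.cosh x / Real.sinh x) (Ioi 0) := by
  have hd : ∀ x ∈ Ioi (0:ℝ), HasDerivAt (fun x : ℝ => x * Real.cosh x / Real.sinh x)
      (((1 * Real.cosh x + x * Real.sinh x) * Real.sinh x - x * Real.cosh x * Real.cosh x) /
        Real.sinh x ^ 2) x := by
    intro x hx
    have hs : Real.sinh x ≠ 0 := (Real.sinh_pos_iff.2 hx).ne'
    exact ((hasDerivAt_id x).mul (Real.hasDerivAt_cosh x)).div (Real.hasDerivAt_sinh x) hs
  apply monotoneOn_of_deriv_nonneg (convex_Ioi _)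
  · exact fun x hx => (hd x hx).continuousAt.continuousWithinAt
  · rw [interior_Ioi]
    exact fun x hx => (hd x hx).differentiableAt.differentiableWithinAt
  · intro x hx
    rw [interior_Ioi] at hx
    rw [(hd x hx).deriv]
    have hx0 : (0:ℝ) < x := hx
    have h1 : x ≤ Real.sinh x := Real.self_le_sinh_iff.2 hx0.le
    have h2 : 1 ≤ Real.cosh x := Real.one_le_cosh x
    have h3 := Real.cosh_sq x
    have h4 : 0 ≤ (1 * Real.cosh x + x * Real.sinh x) * Real.sinh x - x * Real.cosh x * Real.cosh x := by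
      have : (1 * Real.cosh x + x * Real.sinh x) * Real.sinh x - x * Real.cosh x * Real.cosh x =
        Real.cosh x * Real.sinh x - x := by
        have e : Real.cosh x * Real.cosh x = Real.sinh x ^ 2 + 1 := by rw [← h3]; ring
        linear_combination (-x) * e
      rw [this]
      nlinarith
    positivity

theorem FF_nonneg {R κ : ℝ} (hκ : κ * R = 1 - (1 + 2 * R) * Real.exp (-(2 * R))) (hR : 0 < R)
    (hS : SS R ≤ 0) {r : ℝ} (h0 : 0 ≤ r) (h1 : r ≤ R) : 0 ≤ FF R κ r := by
  have hF0 : FF R κ 0 = 0 := by unfold FF; simp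
  have hFR : FF R κ R = 0 := by
    unfold FF
    rw [sub_self, Real.exp_zero, show -(R + R) = -(2 * R) by ring]
    linarith
  have hF1 : 0 ≤ FF1 R κ 0 := by
    have e1 : FF1 R κ 0 = 2 * R * Real.exp (-R) - κ := by
      unfold FF1; simp only [sub_zero, zero_sub, add_zero, zero_add]; ring
    rw [e1]
    have e2 : R * (2 * R * Real.exp (-R) - κ) = -(2 * Real.exp (-R)) * SS R := by
      unfold SS
      rw [Real.sinh_eq]
      have a1 : Real.exp (-(2 * R)) = Real.exp (-R) * Real.exp (-R) := by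
        rw [← Real.exp_add]; congr 1; ring
      have a2 : Real.exp (-R) * Real.exp R = 1 := by rw [← Real.exp_add]; simp
      rw [a1] at hκ
      linear_combination -hκ + a2
    have e3 : 0 ≤ R * (2 * R * Real.exp (-R) - κ) := by
      rw [e2]
      have := Real.exp_pos (-R)
      nlinarith
    by_contra hcon
    push Not at hcon
    have := mul_neg_of_pos_of_neg hR hcon
    linarith
  rcases h0.eq_or_lt with h | h0
  · rw [← h, hF0]
  rcases h1.eq_or_lt with h | h1
  · rw [h, hFR]
  by_contra hcon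
  push Not at hcon
  obtain ⟨a, b, ha, hab, ha2, hb2⟩ := pattern (fun y => FF_deriv R κ y) (fun y => FF1_deriv R κ y)
    hF0 hF1 hFR.ge h0 h1 hcon
  rw [FF2_eq] at ha2 hb2
  have he : 0 < 2 * Real.exp (-R) := by positivity
  have ha3 := neg_of_mul_neg_left' ha2 he
  have hb3 := (mul_pos_iff_of_pos_left he).1 hb2
  have hsa : 0 < Real.sinh a := Real.sinh_pos_iff.2 ha
  have hsb : 0 < Real.sinh b := Real.sinh_pos_iff.2 (ha.trans hab)
  have m := coth_mono (show a ∈ Ioi (0:ℝ) from ha) (show b ∈ Ioi (0:ℝ) from ha.trans hab) hab.le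
  simp only at m
  have k1 : R - 1 < a * Real.cosh a / Real.sinh a := by rw [lt_div_iff₀ hsa]; linarith
  have k2 : b * Real.cosh b / Real.sinh b < R - 1 := by rw [div_lt_iff₀ hsb]; linarith
  linarith

/-! ### the threshold -/

/-- once positive, always positive -/
def Pers (f : ℝ → ℝ) : Prop := ∀ c, 0 < c → 0 < f c → ∀ x, c ≤ x → 0 < f x

theorem pers_of_deriv {f f' : ℝ → ℝ} (hd : ∀ x, HasDerivAt f (f' x) x) (h0 : f 0 ≤ 0)
    (h : Pers f') : Pers f := by
  intro c hc hfc x hx
  obtain ⟨ξ, hξ, he⟩ := exists_hasDerivAt_eq_slope f f' hc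
    (fun y _ => (hd y).continuousAt.continuousWithinAt) (fun y _ => hd y)
  have h1 : 0 < f' ξ := by rw [he]; exact div_pos (by linarith) (by linarith)
  have h2 := h ξ hξ.1 h1
  rcases hx.eq_or_lt with h3 | h3
  · rw [← h3]; exact hfc
  obtain ⟨η, hη, he2⟩ := exists_hasDerivAt_eq_slope f f' h3
    (fun y _ => (hd y).continuousAt.continuousWithinAt) (fun y _ => hd y)
  have h4 := h2 η (by linarith [hξ.2, hη.1])
  rw [he2] at h4
  have h5 : 0 < f x - f c := by
    by_contra hcon
    push Not at hcon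
    have := div_nonpos_of_nonpos_of_nonneg hcon (by linarith : 0 ≤ x - c)
    linarith
  linarith

theorem pers_mul {f g : ℝ → ℝ} (hg : ∀ x, 0 < g x) (h : Pers f) : Pers (fun x => g x * f x) := by
  intro c hc hfc x hx
  exact mul_pos (hg x) (h c hc ((mul_pos_iff_of_pos_left (hg c)).1 hfc) x hx)

theorem SS_pers : Pers SS := by
  -- second derivative
  have p1 : Pers (fun x => Real.exp x - Real.exp (-x) - 2) := by
    intro c _ hfc x hx
    have h1 : Real.exp c ≤ Real.exp x := Real.exp_le_exp.2 hx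
    have h2 : Real.exp (-x) ≤ Real.exp (-c) := Real.exp_le_exp.2 (by linarith)
    simp only at hfc ⊢
    linarith
  have en : ∀ x : ℝ, HasDerivAt (fun x : ℝ => Real.exp (-x)) (-Real.exp (-x)) x := by
    intro x
    exact (hasDerivAt_neg x).exp.congr_deriv (by ring)
  have p2 : Pers (fun x => Real.exp x + Real.exp (-x) - 2 - 2 * x) := by
    apply pers_of_deriv (f' := fun x => Real.exp x - Real.exp (-x) - 2) _ _ p1
    · intro x
      have := (((Real.hasDerivAt_exp x).add (en x)).sub_const 2).sub ((hasDerivAt_id x).const_mul 2)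
      exact this.congr_deriv (by ring)
    · simp; norm_num
  have p3 : Pers (fun x => Real.exp x - Real.exp (-x) - 2 * x - x ^ 2) := by
    apply pers_of_deriv (f' := fun x => Real.exp x + Real.exp (-x) - 2 - 2 * x) _ _ p2
    · intro x
      have := (((Real.hasDerivAt_exp x).sub (en x)).sub ((hasDerivAt_id x).const_mul 2)).sub
        (hasDerivAt_pow 2 x)
      refine this.congr_deriv ?_
      norm_num
    · simp
  have p4 : Pers (fun x => Real.exp x * (Real.exp x - Real.exp (-x) - 2 * x - x ^ 2)) :=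
    pers_mul (fun x => Real.exp_pos x) p3
  have p5 : Pers (fun x => Real.exp (2 * x) / 2 - 1 / 2 - x - x ^ 2 * Real.exp x) := by
    apply pers_of_deriv _ _ p4
    · intro x
      have h2 : HasDerivAt (fun x : ℝ => Real.exp (2 * x)) (Real.exp (2 * x) * 2) x := by
        have : HasDerivAt (fun x : ℝ => 2 * x) 2 x := by
          have := (hasDerivAt_id x).const_mul 2
          exact this.congr_deriv (by ring)
        exact this.exp
      have := (((h2.div_const 2).sub_const (1 / 2)).sub (hasDerivAt_id x)).sub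
        ((hasDerivAt_pow 2 x).mul (Real.hasDerivAt_exp x))
      refine this.congr_deriv ?_
      have a1 : Real.exp (2 * x) = Real.exp x * Real.exp x := by
        rw [← Real.exp_add]; congr 1; ring
      have a2 : Real.exp x * Real.exp (-x) = 1 := by rw [← Real.exp_add]; simp
      rw [a1]
      norm_num
      linear_combination a2
    · simp
  have p6 : SS = fun x => Real.exp (-x) * (Real.exp (2 * x) / 2 - 1 / 2 - x - x ^ 2 * Real.exp x) := by
    funext x
    unfold SS
    rw [Real.sinh_eq]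
    have a1 : Real.exp (2 * x) = Real.exp x * Real.exp x := by
      rw [← Real.exp_add]; congr 1; ring
    have a2 : Real.exp (-x) * Real.exp x = 1 := by rw [← Real.exp_add]; simp
    rw [a1]
    linear_combination (-(Real.exp x / 2) + x ^ 2) * a2
  rw [p6]
  exact pers_mul (fun x => Real.exp_pos _) p5

theorem SS_lo : SS (5 / 2) < 0 := by
  unfold SS
  rw [Real.sinh_eq]
  have h1 : Real.exp (5 / 2) < 25 / 2 := by
    have h2 : Real.exp (5 / 2) ^ 2 = Real.exp 1 ^ 5 := by
      rw [← Real.exp_nat_mul, ← Real.exp_nat_mul]; norm_num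
    have h3 : Real.exp 1 ^ 5 < 156 := by
      calc Real.exp 1 ^ 5 < 2.7182818286 ^ 5 :=
            pow_lt_pow_left₀ Real.exp_one_lt_d9 (Real.exp_pos _).le (by norm_num)
        _ < 156 := by norm_num
    by_contra hcon
    push Not at hcon
    nlinarith
  have h4 := Real.exp_pos (-(5 / 2) : ℝ)
  nlinarith

theorem SS_hi : 0 < SS 3 := by
  unfold SS
  rw [Real.sinh_eq]
  have h1 : (20.08 : ℝ) < Real.exp 3 := by
    have h2 : Real.exp 3 = Real.exp 1 ^ 3 := by
      rw [← Real.exp_nat_mul]; norm_num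
    rw [h2]
    calc (20.08 : ℝ) < 2.7182818283 ^ 3 := by norm_num
      _ < Real.exp 1 ^ 3 := pow_lt_pow_left₀ Real.exp_one_gt_d9 (by norm_num) (by norm_num)
  have h2 : Real.exp (-3) < 0.05 := by
    rw [Real.exp_neg, inv_lt_comm₀ (Real.exp_pos _) (by norm_num)]
    linarith
  have h3 := Real.exp_pos (-3 : ℝ)
  nlinarith

theorem threshold : ∃ R₀ : ℝ, 5 / 2 < R₀ ∧ R₀ < 3 ∧ SS R₀ = 0 ∧
    (∀ R, 0 < R → R ≤ R₀ → SS R ≤ 0) ∧ (∀ R, R₀ < R → 0 < SS R) := by
  have hc : Continuous SS := by unfold SS; have := Real.continuous_sinh; fun_prop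
  set A : Set ℝ := {R | 5 / 2 ≤ R ∧ R ≤ 3 ∧ SS R ≤ 0} with hA
  have hne : A.Nonempty := ⟨5 / 2, le_rfl, by norm_num, SS_lo.le⟩
  have hbd : BddAbove A := ⟨3, fun x hx => hx.2.1⟩
  have hcl : IsClosed A := by
    have : A = Icc (5 / 2) 3 ∩ SS ⁻¹' (Iic 0) := by
      ext x; simp only [hA, mem_ofPred_eq, mem_inter_iff, mem_Icc, mem_preimage, mem_Iic]; tauto
    rw [this]
    exact isClosed_Icc.inter (isClosed_Iic.preimage hc)
  set R₀ := sSup A with hR
  have hmem : R₀ ∈ A := hcl.csSup_mem hne hbd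
  have hpos : ∀ R, R₀ < R → 0 < SS R := by
    intro R hRR
    by_contra hcon
    push Not at hcon
    by_cases h3 : R ≤ 3
    · have : R ∈ A := ⟨by linarith [hmem.1], h3, hcon⟩
      have := le_csSup hbd this
      linarith
    · push Not at h3
      have := SS_pers 3 (by norm_num) SS_hi R h3.le
      linarith
  have h3 : R₀ < 3 := by
    rcases hmem.2.1.eq_or_lt with h | h
    · have := hmem.2.2
      rw [h] at this
      linarith [SS_hi]
    · exact h
  have hzero : SS R₀ = 0 := by
    apply le_antisymm hmem.2.2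
    have : Tendsto SS (𝓝[>] R₀) (𝓝 (SS R₀)) := hc.continuousAt.continuousWithinAt
    apply ge_of_tendsto this
    filter_upwards [self_mem_nhdsWithin] with x hx
    exact (hpos x hx).le
  refine ⟨R₀, ?_, h3, hzero, ?_, hpos⟩
  · rcases hmem.1.eq_or_lt with h | h
    · rw [← h] at hzero
      linarith [SS_lo]
    · exact h
  · intro R hR0 hRR
    by_contra hcon
    push Not at hcon
    have := SS_pers R hR0 hcon R₀ hRR
    linarith

end Pool.Agent.R755.Mx
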